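import Pool.Agent.P.MP_471da3_lc.Chain

/-!
The accounting invariant and the links between returns and holding items.
-/

namespace Pool.Agent.P.MP_471da3_lc

open Pool.Agent.Lib.Comp

variable {g : ℕ}

/-- Accounting along the stack, in continuation style. -/
def Inv (g : ℕ) : List Frame → ℝ → ℝ → Prop → Prop
  | [], V, J, _ => V ≤ 1 ∧ (kk g : ℝ) / 4 ≤ J
  | f :: rest, V, J, fin => rest.length ≤ kk g ∧ ∃ u c J0 : ℝ, V = oV f + u + c ∧ 0 ≤ u ∧
      u ≤ kap g f * (1 - 1 / 2 ^ fm f) ∧ 0 ≤ c ∧ (c ≤ pF f - kap g f ∨ c = 0) ∧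
      (fP f = 0 → fm f = 0) ∧ J0 + ((kk g : ℝ) - rest.length + 1) / 4 * c ≤ J ∧
      (fin → pF f - kap g f ≤ u + c) ∧
      Inv g rest (oV f + pF f) (J0 + ((kk g : ℝ) - rest.length) / 4 * pF f) (ff f = true)

theorem Inv.mono {st : List Frame} {V J J' : ℝ} {a b : Prop} (h : Inv g st V J a) (hJ : J ≤ J')
    (hab : b → a) : Inv g st V J' b := by
  cases st with
  | nil => exact ⟨h.1, h.2.trans hJ⟩
  | cons f rest =>
    obtain ⟨h0, u, c, J0, h1, h2, h3, h4, h5, h6, h7, h8, h9⟩ := h
    exact ⟨h0, u, c, J0, h1, h2, h3, h4, h5, h6, h7.trans hJ, fun hb => h8 (hab hb), h9⟩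

theorem kap_le (f : Frame) (h : fP f ≠ 0) : 2 * ((kk g : ℝ) + 1) * kap g f ≤ pF f := by
  have h1 : (1 : ℝ) ≤ fP f := by exact_mod_cast Nat.one_le_iff_ne_zero.2 h
  have h2 : (kk g : ℝ) = 2 ^ (2 * g + 6) := by simp [kk]
  have h3 : (1 : ℝ) ≤ 2 ^ (2 * g + 6) := one_le_pow₀ (by norm_num)
  have h4 : (2 : ℝ) ^ (ft f + KK g) = 2 ^ ft f * (4 * 2 ^ (2 * g + 6)) := by
    unfold KK; rw [pow_add]; ring
  unfold kap pF v
  rw [h2, h4, mul_one_div, div_le_div_iff₀ (by positivity) (by positivity)]
  have h5 : (0 : ℝ) < 2 ^ ft f := by positivity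
  nlinarith [mul_le_mul_of_nonneg_right h1 (show (0 : ℝ) ≤ 2 ^ ft f * (4 * 2 ^ (2 * g + 6)) by
    positivity), mul_le_mul_of_nonneg_right h3 h5.le]

theorem used_le {f : Frame} {u c : ℝ} (h3 : u ≤ kap g f * (1 - 1 / 2 ^ fm f)) (h4 : 0 ≤ c)
    (h5 : c ≤ pF f - kap g f ∨ c = 0) (h6 : fP f = 0 → fm f = 0) :
    u ≤ kap g f ∧ u + c ≤ pF f := by
  have k0 := kap_pos g f
  have a1 : u ≤ kap g f := by
    have : (0 : ℝ) ≤ 1 / 2 ^ fm f := by positivity
    nlinarith
  refine ⟨a1, ?_⟩
  by_cases hP : fP f = 0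
  · have a2 : pF f = 0 := by simp [pF, hP, v_zero]
    rw [h6 hP] at h3
    simp only [pow_zero, div_one, sub_self, mul_zero] at h3
    rcases h5 with h5 | h5 <;> linarith
  · have a2 := kap_le (g := g) f hP
    have a3 : (0 : ℝ) ≤ kk g := by positivity
    rcases h5 with h5 | h5 <;> nlinarith

theorem Inv.le_one {st : List Frame} {V J : ℝ} {a : Prop} (h : Inv g st V J a) : V ≤ 1 := by
  induction st generalizing V J a with
  | nil => exact h.1
  | cons f rest ih =>
    obtain ⟨h0, u, c, J0, h1, h2, h3, h4, h5, h6, h7, h8, h9⟩ := h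
    have := ih h9
    have := (used_le h3 h4 h5 h6).2
    linarith

theorem Inv.top_le {f : Frame} {rest : List Frame} {V J : ℝ} {a : Prop}
    (h : Inv g (f :: rest) V J a) : V ≤ oV f + pF f := by
  obtain ⟨h0, u, c, J0, h1, h2, h3, h4, h5, h6, h7, h8, h9⟩ := h
  have := (used_le h3 h4 h5 h6).2
  linarith

theorem Inv.pop {f : Frame} {rest : List Frame} {V J : ℝ} {a : Prop}
    (h : Inv g (f :: rest) V J a) (hr : a ∨ rest.length = kk g ∨ fP f = 0) :
    Inv g rest (oV f + pF f) J (ff f = true) := by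
  obtain ⟨h0, u, c, J0, h1, h2, h3, h4, h5, h6, h7, h8, h9⟩ := h
  refine h9.mono ?_ id
  have a0 : (rest.length : ℝ) ≤ kk g := by exact_mod_cast h0
  have a1 : (0 : ℝ) ≤ rest.length := by positivity
  have a2 : 0 ≤ ((kk g : ℝ) - rest.length + 1) / 4 * c := mul_nonneg (by linarith) h4
  by_cases hP : fP f = 0
  · have a3 : pF f = 0 := by simp [pF, hP, v_zero]
    rw [a3]; linarith
  rcases hr with hr | hr | hr
  · have b1 := h8 hr
    have b2 := (used_le h3 h4 h5 h6).1
    have b3 := kap_le (g := g) f hP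
    have b4 := kap_pos g f
    have b5 : pF f - 2 * kap g f ≤ c := by linarith
    have b6 := mul_le_mul_of_nonneg_left b5
      (show (0 : ℝ) ≤ ((kk g : ℝ) - rest.length + 1) / 4 by linarith)
    nlinarith [mul_nonneg a1 b4.le]
  · rw [hr] at h7 a2 ⊢
    simp only [sub_self, zero_div, zero_mul, add_zero]
    linarith
  · exact absurd hr hP

/-- Junk held by the list. -/
noncomputable def JJ (L : List Item) : ℝ := (L.map qq).sum

theorem ret_true {p : Item} {f : Frame} {rest : List Frame} (h : ist p = f :: rest) :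
    ret g p = true ↔ (ik p = 4 ∧ ifn p = true) ∨ rest.length = kk g ∨ fP f = 0 := by
  simp [ret, h]

theorem ret_false {p : Item} {f : Frame} {rest : List Frame} (h : ist p = f :: rest)
    (h' : ret g p = false) : ¬(ik p = 4 ∧ ifn p = true) ∧ rest.length ≠ kk g ∧ fP f ≠ 0 := by
  have := (ret_true (g := g) h).not.1 (by simp [h'])
  tauto

theorem vV_mkR {L : List Item} {p : Item} (h : Good g L p) {s : ℕ} {f : Frame}
    {rest : List Frame} (h3 : ist p = f :: rest) (h4 : tm p < s) (h5 : vV p ≤ oV f + pF f) :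
    vV (mkR s p f) = oV f + pF f := by
  have a := h.ft_le f (by rw [h3]; simp)
  simp only [vV, mkR, iV_mk, tm_mk, v_add, v_sub, v_sc _ h4.le, v_sc _ (a.trans h4.le)]
  change vV p + max 0 (pF f + oV f - vV p) = _
  rw [max_eq_right (by linarith)]; ring

theorem Good.acc {L : List Item} {p : Item} (h : Good g L p) :
    Inv g (ist p) (vV p) (JJ L) (ik p = 4 ∧ ifn p = true) := by
  induction h with
  | base =>
    refine ⟨by simp, 0, 0, 0, ?_, le_rfl, ?_, le_rfl, Or.inr rfl, by simp, ?_, ?_, ?_, ?_⟩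
    · simp [vV, oV, root, v_zero]
    · simp
    · simp [JJ, qq, root, v_zero]
    · simp [root]
    · simp [oV, pF, v]
    · simp [pF, v]
  | @snoc L p y h1 h2 ih =>
    have hJ : JJ (L ++ [y]) = JJ L + qq y := by simp [JJ]
    rw [hJ]
    have hV := h2.vV_eq
    cases h2 with
    | R s f rest h3 h4 h5 =>
      rw [h3] at ih
      rw [vV_mkR h1 h3 h4 ih.top_le]
      have := ih.pop ((ret_true h3).1 h5)
      simp only [mkR, ist_mk, h3, List.drop_one, List.tail_cons, ik_mk, ifn_mk, true_and]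
      exact this.mono (le_add_of_nonneg_right (qq_nonneg _)) id
    | U s f rest h3 h4 h5 h6 =>
      rw [h3] at ih
      obtain ⟨h0, u, c, J0, i1, i2, i3, i4, i5, i6, i7, i8, i9⟩ := ih
      have w : wt (mkU g s p f) = kap g f / 2 ^ (fm f + 1) := by
        simp only [wt, mkU, ij_mk, tm_mk, v_pow h6, kap]
        rw [add_assoc (ft f + KK g), pow_add]; field_simp
      have k0 := kap_pos g f
      have e : ist (mkU g s p f) = setm f (fm f + 1) :: rest := by simp [mkU, h3]
      rw [e, hV, w]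
      refine ⟨h0, u + kap g f / 2 ^ (fm f + 1), c, J0, ?_, by positivity, ?_, i4, i5,
        fun h => absurd h (ret_false h3 h5).2.2, ?_, by simp [mkU], i9⟩
      · rw [i1, oV_setm]; ring
      · rw [kap_setm, fm_setm]
        have : kap g f * (1 - 1 / 2 ^ (fm f + 1)) =
            kap g f * (1 - 1 / 2 ^ fm f) + kap g f / 2 ^ (fm f + 1) := by
          rw [pow_succ]; field_simp; ring
        linarith
      · exact i7.trans (le_add_of_nonneg_right (qq_nonneg _))
    | W s x f rest h3 h4 h5 h6 =>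
      rw [h3] at ih
      obtain ⟨h0, u, c, J0, i1, i2, i3, i4, i5, i6, i7, i8, i9⟩ := ih
      have k0 := kap_pos g f
      rw [hV]
      simp only [ist_mk, wt, ij_mk, v_zero, add_zero]
      refine ⟨h0, u, c, J0, i1, i2, ?_, i4, i5,
        fun h => absurd h (ret_false h3 h6).2.2, ?_, by simp, i9⟩
      · rw [kap_setm, fm_setm]
        have : kap g f * (1 - 1 / 2 ^ (fm f + 1)) =
            kap g f * (1 - 1 / 2 ^ fm f) + kap g f / 2 ^ (fm f + 1) := by
          rw [pow_succ]; field_simp; ring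
        have : 0 ≤ kap g f / 2 ^ (fm f + 1) := by positivity
        linarith
      · exact i7.trans (le_add_of_nonneg_right (qq_nonneg _))
    | H s x sd Q f rest h3 h4 h5 h6 h7 h8 =>
      rw [h3] at ih
      obtain ⟨h0, u, c, J0, i1, i2, i3, i4, i5, i6, i7, i8, i9⟩ := ih
      have k0 := kap_pos g f
      have hr := ret_false h3 h6
      have hv : v (sc (iV p) (tm p) s) s = vV p := v_sc _ (by omega)
      have hq := v_nonneg Q s
      have sp := child_spec g s x sd Q (sc (iV p) (tm p) s) f (by omega)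
      have ho : oV (child g s x sd Q (sc (iV p) (tm p) s) f) = vV p := by simp [oV, hv]
      rw [hV]
      simp only [mkH_eq, ist_mk, wt, ij_mk, v_zero, add_zero, qq, iQ_mk, tm_mk]
      rw [hv] at sp
      have hm : fm (child g s x sd Q (sc (iV p) (tm p) s) f) = 0 := fm_child ..
      generalize child g s x sd Q (sc (iV p) (tm p) s) f = ch at sp ho hm ⊢
      have a0 : rest.length + 1 ≤ kk g := lt_of_le_of_ne h0 hr.2.1
      have p0 := pF_nonneg ch
      have p2 : pF ch ≤ 2 * v Q s := by
        rcases sp with ⟨_, h, _⟩ | ⟨_, h, h'⟩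
        · exact h.le
        · rw [h]; apply max_le <;> linarith
      refine ⟨a0, 0, 0, JJ L + v Q s, by simp [ho], le_rfl, by simp [hm], le_rfl, Or.inr rfl,
        fun _ => hm, by simp, by simp, h0, u, c + pF ch, J0, by rw [ho, i1]; ring, i2, i3,
        by linarith, ?_, i6, ?_, ?_, i9⟩
      · rcases sp with ⟨_, h, h'⟩ | ⟨_, h, h'⟩
        · left; linarith
        · rcases le_total 0 (pF f + oV f - (vV p + kap g f)) with h2 | h2
          · rw [max_eq_right h2] at h; left; linarith
          · rw [max_eq_left h2] at h; rw [h, add_zero]; exact i5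
      · simp only [List.length_cons]
        push_cast
        nlinarith
      · intro hf
        rcases sp with ⟨h, _, _⟩ | ⟨_, h, h'⟩
        · rw [h] at hf; exact absurd hf (by simp)
        · have := le_max_right 0 (pF f + oV f - (vV p + kap g f))
          linarith

theorem Good.vV_le {L : List Item} {p : Item} (h : Good g L p) : vV p ≤ 1 := h.acc.le_one

theorem Good.len_le {L : List Item} {p : Item} (h : Good g L p) : (ist p).length ≤ kk g + 1 := by
  have := h.acc
  cases e : ist p with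
  | nil => simp
  | cons f rest => rw [e] at this; simpa using this.1

theorem Good.junk {L : List Item} {p : Item} (h : Good g L p) (e : ist p = []) :
    (kk g : ℝ) / 4 ≤ JJ L := by
  have := h.acc
  rw [e] at this
  exact this.2

theorem Good.of_mem {L : List Item} {p y : Item} (h : Good g L p) (hy : y ∈ L) :
    ∃ L1 L2, L = L1 ++ y :: L2 ∧ Good g (L1 ++ [y]) y := by
  obtain ⟨L1, L2, e⟩ := List.append_of_mem hy
  exact ⟨L1, L2, e, h.init _ _ _ e⟩

theorem Good.wt_le {L : List Item} {p y : Item} (h : Good g L p) (hy : y ∈ L) : wt y ≤ 1 := by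
  obtain ⟨L1, L2, -, h1⟩ := h.of_mem hy
  rcases h1.inv with ⟨-, rfl⟩ | ⟨z, -, h2⟩
  · simp [wt, root, v_zero]
  · have := h1.vV_le
    have := h2.vV_eq
    have := vV_nonneg z
    linarith

/-- Non-final frames are linked with the holding item that pushed them. -/
theorem Good.flink {L : List Item} {p : Item} (h : Good g L p) : ∀ f ∈ ist p, ff f = false →
    ∃ y ∈ L, ik y = 2 ∧ ix y = fo f ∧ isd y = !fs f ∧ oV f = vV y ∧ pF f = 2 * qq y := by
  induction h with
  | base => simp [root]
  | @snoc L p y h1 h2 ih =>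
    have old : ∀ f ∈ ist p, ff f = false → ∃ z ∈ L ++ [y],
        ik z = 2 ∧ ix z = fo f ∧ isd z = !fs f ∧ oV f = vV z ∧ pF f = 2 * qq z := by
      intro f hf hf'
      obtain ⟨z, hz, h⟩ := ih f hf hf'
      exact ⟨z, List.mem_append_left _ hz, h⟩
    cases h2 with
    | R s f rest h3 h4 h5 => exact fun a ha => old a (List.mem_of_mem_drop ha)
    | U s f rest h3 h4 h5 h6 =>
      intro a ha
      simp only [mkU, ist_mk, List.mem_cons] at ha
      rcases ha with rfl | ha
      · exact old f (by simp [h3])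
      · exact old a (List.mem_of_mem_drop ha)
    | W s x f rest h3 h4 h5 h6 =>
      intro a ha
      simp only [ist_mk, List.mem_cons] at ha
      rcases ha with rfl | ha
      · exact old f (by simp [h3])
      · exact old a (by simp [h3, ha])
    | H s x sd Q f rest h3 h4 h5 h6 h7 h8 =>
      intro a ha
      simp only [mkH_eq, ist_mk, List.mem_cons] at ha
      rcases ha with rfl | ha
      · intro hf
        refine ⟨_, List.mem_append_right _ (List.mem_singleton_self _), rfl, by simp [mkH_eq],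
          by simp [mkH_eq], by simp [mkH_eq, oV, vV], ?_⟩
        rcases child_spec g s x sd Q (sc (iV p) (tm p) s) f (by omega) with h | h
        · exact h.2.1
        · rw [h.1] at hf; exact absurd hf (by simp)
      · exact old a (by rw [h3]; simpa using ha)

/-- Non-final returns are linked with the holding item whose call they end. -/
theorem Good.rlink {L : List Item} {r : Item} (h : Good g (L ++ [r]) r) (h1 : ik r = 4)
    (h2 : ifn r = false) : ∃ y ∈ L, ik y = 2 ∧ ix y = ix r ∧ isd y = !isd r ∧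
      vV r = vV y + 2 * qq y := by
  rcases h.inv with ⟨-, rfl⟩ | ⟨p, hp, hx⟩
  · simp [root] at h1
  cases hx with
  | R s f rest h3 h4 h5 =>
    obtain ⟨y, hy, a1, a2, a3, a4, a5⟩ := hp.flink f (by simp [h3]) h2
    refine ⟨y, hy, a1, a2, a3, ?_⟩
    have := hp.acc
    rw [h3] at this
    rw [vV_mkR hp h3 h4 this.top_le, a4, a5]
  | U s f rest h3 h4 h5 h6 => simp [mkU] at h1
  | W s x f rest h3 h4 h5 h6 => simp at h1
  | H s x sd Q f rest h3 h4 h5 h6 h7 h8 => simp [mkH] at h1

theorem Good.sum_Ioc {L : List Item} {p : Item} (h : Good g L p) {φ : ℕ → ℝ} (h0 : ∀ n, 0 ≤ φ n)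
    (h1 : ∀ y ∈ L, wt y ≤ φ (tm y)) :
    ∀ y ∈ L, vV p - vV y ≤ ∑ n ∈ Finset.Ioc (tm y) (tm p), φ n := by
  induction h with
  | base => simp
  | @snoc L p z h2 h3 ih =>
    intro y hy
    rcases List.mem_append.1 hy with hy | hy
    · have a1 := ih (fun y hy => h1 y (List.mem_append_left _ hy)) y hy
      have a2 := h1 z (by simp)
      have a3 := h2.tm_le y hy
      have a4 := h3.tm_lt
      have a5 : ∑ n ∈ Finset.Ioc (tm y) (tm p), φ n + φ (tm z) ≤
          ∑ n ∈ Finset.Ioc (tm y) (tm z), φ n := by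
        rw [add_comm, ← Finset.sum_insert (by simp; omega)]
        refine Finset.sum_le_sum_of_subset_of_nonneg ?_ fun n _ _ => h0 n
        intro n hn
        simp only [Finset.mem_insert, Finset.mem_Ioc] at hn ⊢
        omega
      rw [h3.vV_eq]; linarith
    · rw [List.mem_singleton.1 hy]; simp

theorem Good.sum_wt {L : List Item} {p : Item} (h : Good g L p) : (L.map wt).sum = vV p := by
  induction h with
  | base => simp [wt, vV, root, v_zero]
  | snoc h1 h2 ih => simp [ih, h2.vV_eq]

theorem Good.junk_le {L : List Item} {p : Item} (h : Good g L p) {ψ : ℕ → ℝ} (h0 : ∀ n, 0 ≤ ψ n)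
    (h1 : ∀ y ∈ L, ik y = 2 → qq y ≤ ∑ n ∈ Finset.Ico (ix y) (tm y), ψ n) :
    JJ L ≤ ∑ n ∈ Finset.range (tm p), ψ n := by
  induction h with
  | base => simp [JJ, qq, root, v_zero]
  | @snoc L p z h2 h3 ih =>
    have a1 := ih fun y hy => h1 y (List.mem_append_left _ hy)
    have hJ : JJ (L ++ [z]) = JJ L + qq z := by simp [JJ]
    have a4 := h3.tm_lt
    have a2 : qq z ≤ ∑ n ∈ Finset.Ico (tm p) (tm z), ψ n := by
      by_cases hz : ik z = 2
      · refine (h1 z (by simp) hz).trans (Finset.sum_le_sum_of_subset_of_nonneg ?_ fun n _ _ => h0 n)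
        exact Finset.Ico_subset_Ico_left (h3.ix_bounds (Or.inr (Or.inl hz))).1.le
      · refine le_trans (le_of_eq ?_) (Finset.sum_nonneg fun n _ => h0 n)
        cases h3 <;> simp [mkR, mkU, mkH, qq, v_zero] at hz ⊢
    rw [hJ, ← Finset.sum_range_add_sum_Ico _ a4.le]
    linarith

end Pool.Agent.P.MP_471da3_lc
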