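import Pool.Agent.P.MP_471da3_lc.Defs

/-!
Structure of the lists of items: the successor relation and the accounting invariant.
-/

namespace Pool.Agent.P.MP_471da3_lc

open Pool.Agent.Lib.Comp

/-- The dyadic rational `n / 2 ^ t`. -/
noncomputable def v (n t : ℕ) : ℝ := (n : ℝ) / 2 ^ t

theorem v_nonneg (n t : ℕ) : 0 ≤ v n t := by unfold v; positivity

theorem v_sc (n : ℕ) {t s : ℕ} (h : t ≤ s) : v (sc n t s) s = v n t := by
  obtain ⟨d, rfl⟩ := Nat.exists_eq_add_of_le h
  unfold v sc
  rw [Nat.add_sub_cancel_left]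
  push_cast
  rw [pow_add]
  field_simp

theorem v_add (a b t : ℕ) : v (a + b) t = v a t + v b t := by
  unfold v; push_cast; ring

theorem v_two (a t : ℕ) : v (2 * a) t = 2 * v a t := by
  unfold v; push_cast; ring

theorem v_zero (t : ℕ) : v 0 t = 0 := by simp [v]

theorem v_le_iff {a b t : ℕ} : v a t ≤ v b t ↔ a ≤ b := by
  unfold v
  rw [div_le_div_iff_of_pos_right (by positivity), Nat.cast_le]

theorem v_sub (a b t : ℕ) : v (a - b) t = max 0 (v a t - v b t) := by
  rcases le_total a b with h | h
  · rw [Nat.sub_eq_zero_of_le h, v_zero, max_eq_left]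
    have := (v_le_iff (t := t)).2 h
    linarith
  · obtain ⟨d, rfl⟩ := Nat.exists_eq_add_of_le h
    rw [Nat.add_sub_cancel_left, v_add, add_sub_cancel_left, max_eq_right (v_nonneg _ _)]

theorem v_pow {a s : ℕ} (h : a ≤ s) : v (2 ^ (s - a)) s = 1 / 2 ^ a := by
  have := v_sc 1 h
  unfold sc at this
  rw [one_mul] at this
  rw [this]; simp [v]

theorem sc_sc (n : ℕ) {t s r : ℕ} (h1 : t ≤ s) (h2 : s ≤ r) : sc (sc n t s) s r = sc n t r := by
  unfold sc
  rw [mul_assoc, ← pow_add]
  congr 2; omega

noncomputable def vV (y : Item) : ℝ := v (iV y) (tm y)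
noncomputable def wt (y : Item) : ℝ := v (ij y) (tm y)
noncomputable def qq (y : Item) : ℝ := v (iQ y) (tm y)
noncomputable def pF (f : Frame) : ℝ := v (fP f) (ft f)
noncomputable def oV (f : Frame) : ℝ := v (fV f) (ft f)
noncomputable def kap (g : ℕ) (f : Frame) : ℝ := 1 / 2 ^ (ft f + KK g)

theorem vV_nonneg (y : Item) : 0 ≤ vV y := v_nonneg _ _
theorem wt_nonneg (y : Item) : 0 ≤ wt y := v_nonneg _ _
theorem qq_nonneg (y : Item) : 0 ≤ qq y := v_nonneg _ _
theorem pF_nonneg (y : Frame) : 0 ≤ pF y := v_nonneg _ _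
theorem oV_nonneg (y : Frame) : 0 ≤ oV y := v_nonneg _ _
theorem kap_pos (g : ℕ) (f : Frame) : 0 < kap g f := by unfold kap; positivity

@[simp] theorem top_cons (f : Frame) (r : List Frame) : top (f :: r) = f := rfl
@[simp] theorem ft_setm (f : Frame) (m : ℕ) : ft (setm f m) = ft f := rfl
@[simp] theorem fP_setm (f : Frame) (m : ℕ) : fP (setm f m) = fP f := rfl
@[simp] theorem fV_setm (f : Frame) (m : ℕ) : fV (setm f m) = fV f := rfl
@[simp] theorem fm_setm (f : Frame) (m : ℕ) : fm (setm f m) = m := rfl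
@[simp] theorem fo_setm (f : Frame) (m : ℕ) : fo (setm f m) = fo f := rfl
@[simp] theorem fs_setm (f : Frame) (m : ℕ) : fs (setm f m) = fs f := rfl
@[simp] theorem ff_setm (f : Frame) (m : ℕ) : ff (setm f m) = ff f := rfl
@[simp] theorem pF_setm (f : Frame) (m : ℕ) : pF (setm f m) = pF f := rfl
@[simp] theorem oV_setm (f : Frame) (m : ℕ) : oV (setm f m) = oV f := rfl
@[simp] theorem kap_setm (g : ℕ) (f : Frame) (m : ℕ) : kap g (setm f m) = kap g f := rfl
@[simp] theorem setm_setm (f : Frame) (m n : ℕ) : setm (setm f m) n = setm f n := rfl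
@[simp] theorem setm_self (f : Frame) : setm f (fm f) = f := rfl

/-- The frame pushed by a holding item. -/
def child (g s x : ℕ) (sd : Bool) (Q V : ℕ) (f : Frame) : Frame :=
  cond (leb (V + 2 * Q + 2 ^ (s - (ft f + KK g))) (sc (fP f) (ft f) s + sc (fV f) (ft f) s))
    (mkF s (2 * Q) V 0 x (!sd) false)
    (mkF s (sc (fP f) (ft f) s + sc (fV f) (ft f) s - (V + 2 ^ (s - (ft f + KK g)))) V 0 x
      (!sd) true)

theorem mkH_eq (g s x e : ℕ) (sd : Bool) (Q V : ℕ) (f : Frame) (rest : List Frame) :
    mkH g s x e sd Q V f rest = mkI 2 s x e Q 0 V sd false (child g s x sd Q V f :: f :: rest) :=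
  rfl

section child
variable (g s x : ℕ) (sd : Bool) (Q V : ℕ) (f : Frame)
@[simp] theorem ft_child : ft (child g s x sd Q V f) = s := by
  unfold child; cases leb _ _ <;> rfl
@[simp] theorem fV_child : fV (child g s x sd Q V f) = V := by
  unfold child; cases leb _ _ <;> rfl
@[simp] theorem fm_child : fm (child g s x sd Q V f) = 0 := by
  unfold child; cases leb _ _ <;> rfl
@[simp] theorem fo_child : fo (child g s x sd Q V f) = x := by
  unfold child; cases leb _ _ <;> rfl
@[simp] theorem fs_child : fs (child g s x sd Q V f) = !sd := by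
  unfold child; cases leb _ _ <;> rfl

theorem child_spec (h : ft f + KK g ≤ s) :
    (ff (child g s x sd Q V f) = false ∧ pF (child g s x sd Q V f) = 2 * v Q s ∧
      v V s + 2 * v Q s + kap g f ≤ pF f + oV f) ∨
    (ff (child g s x sd Q V f) = true ∧
      pF (child g s x sd Q V f) = max 0 (pF f + oV f - (v V s + kap g f)) ∧
      pF f + oV f < v V s + 2 * v Q s + kap g f) := by
  have h1 : v (V + 2 * Q + 2 ^ (s - (ft f + KK g))) s = v V s + 2 * v Q s + kap g f := by
    rw [v_add, v_add, v_two, v_pow h]; rfl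
  have h2 : v (sc (fP f) (ft f) s + sc (fV f) (ft f) s) s = pF f + oV f := by
    rw [v_add, v_sc _ (by omega), v_sc _ (by omega)]; rfl
  unfold child
  cases hb : leb (V + 2 * Q + 2 ^ (s - (ft f + KK g))) (sc (fP f) (ft f) s + sc (fV f) (ft f) s)
  · right
    refine ⟨rfl, ?_, ?_⟩
    · simp only [cond_false, pF, fP_mk, ft_mk]
      rw [v_sub, h2, v_add, v_pow h]; rfl
    · rw [← h1, ← h2, ← not_le, v_le_iff, not_le]
      exact leb_false.1 hb
  · left
    refine ⟨rfl, ?_, ?_⟩
    · simp only [cond_true, pF, fP_mk, ft_mk, v_two]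
    · rw [← h1, ← h2, v_le_iff]
      exact leb_true.1 hb
end child

/-- The successor relation between consecutive items. -/
inductive Nx (g : ℕ) (p : Item) : Item → Prop
  | R (s : ℕ) (f : Frame) (rest : List Frame) : ist p = f :: rest → tm p < s → ret g p = true →
      Nx g p (mkR s p f)
  | U (s : ℕ) (f : Frame) (rest : List Frame) : ist p = f :: rest → tm p < s → ret g p = false →
      ft f + KK g + fm f + 1 ≤ s → Nx g p (mkU g s p f)
  | H (s x : ℕ) (sd : Bool) (Q : ℕ) (f : Frame) (rest : List Frame) : ist p = f :: rest →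
      tm p < x → x ≤ s → ret g p = false → ft f + KK g + fm f + 2 ≤ s →
      2 ^ (s - (ft f + KK g + fm f + 2)) ≤ Q →
      Nx g p (mkH g s x (fm f) sd Q (sc (iV p) (tm p) s) f rest)
  | W (s x : ℕ) (f : Frame) (rest : List Frame) : ist p = f :: rest → tm p < x → x ≤ s →
      ret g p = false →
      Nx g p (mkI 3 s x (fm f) 0 0 (sc (iV p) (tm p) s) false false (setm f (fm f + 1) :: rest))

variable {g : ℕ}

theorem Nx.tm_lt {p y : Item} (h : Nx g p y) : tm p < tm y := by
  cases h <;> simp [mkR, mkU, mkH] <;> omega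

theorem Nx.vV_eq {p y : Item} (h : Nx g p y) : vV y = vV p + wt y := by
  cases h with
  | R s f rest h1 h2 h3 => simp only [vV, wt, mkR, iV_mk, tm_mk, ij_mk, v_add, v_sc _ h2.le]
  | U s f rest h1 h2 h3 h4 => simp only [vV, wt, mkU, iV_mk, tm_mk, ij_mk, v_add, v_sc _ h2.le]
  | H s x sd Q f rest h1 h2 h3 h4 h5 h6 =>
    simp only [vV, wt, mkH, iV_mk, tm_mk, ij_mk, v_zero, add_zero]
    exact v_sc _ (by omega)
  | W s x f rest h1 h2 h3 h4 =>
    simp only [vV, wt, iV_mk, tm_mk, ij_mk, v_zero, add_zero]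
    exact v_sc _ (by omega)

/-- Followers are the items of kinds 1, 2, 3. -/
def Fol (y : Item) : Prop := ik y = 1 ∨ ik y = 2 ∨ ik y = 3

theorem Nx.ix_bounds {p y : Item} (h : Nx g p y) (hy : Fol y) : tm p < ix y ∧ ix y ≤ tm y := by
  cases h <;> simp [mkR, mkU, mkH, Fol] at hy ⊢ <;> omega

theorem Nx.ne_nil {p y : Item} (h : Nx g p y) : ist p ≠ [] := by
  cases h <;> simp [*]

/-- Lists produced by the construction, with their last item. -/
inductive Good (g : ℕ) : List Item → Item → Prop
  | base : Good g [root] root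
  | snoc {L : List Item} {p y : Item} : Good g L p → Nx g p y → Good g (L ++ [y]) y

theorem Good.init {L : List Item} {p : Item} (h : Good g L p) :
    ∀ L1 y L2, L = L1 ++ y :: L2 → Good g (L1 ++ [y]) y := by
  induction h with
  | base =>
    intro L1 y L2 h
    cases L1 with
    | nil => simp only [List.nil_append, List.cons.injEq] at h; rw [← h.1]; exact Good.base
    | cons a L1 => simp at h
  | @snoc L p y h1 h2 ih =>
    intro L1 z L2 h
    rcases L2.eq_nil_or_concat with rfl | ⟨L3, b, rfl⟩
    · obtain ⟨rfl, h3⟩ := List.append_inj' h rfl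
      obtain rfl : y = z := by simpa using h3
      exact h1.snoc h2
    · rw [List.concat_eq_append, ← List.cons_append, ← List.append_assoc] at h
      exact ih _ _ _ (List.append_inj' h rfl).1

theorem Good.inv {L : List Item} {y : Item} (h : Good g (L ++ [y]) y) :
    (L = [] ∧ y = root) ∨ ∃ p, Good g L p ∧ Nx g p y := by
  generalize hM : L ++ [y] = M at h
  cases h with
  | base =>
    left
    cases L with
    | nil => simp
    | cons a L => simp at hM
  | @snoc L' p y h1 h2 =>
    right
    obtain rfl := (List.append_inj' hM rfl).1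
    exact ⟨p, h1, h2⟩

theorem Good.last {L : List Item} {p : Item} (h : Good g L p) : ∃ L1, L = L1 ++ [p] := by
  cases h with
  | base => exact ⟨[], rfl⟩
  | snoc h1 h2 => exact ⟨_, rfl⟩

theorem Good.mem {L : List Item} {p : Item} (h : Good g L p) : p ∈ L := by
  obtain ⟨L1, rfl⟩ := h.last; simp

theorem Good.getD {L : List Item} {p : Item} (h : Good g L p) :
    L.getD (L.length - 1) root = p := by
  obtain ⟨L1, rfl⟩ := h.last; simp

theorem Good.tm_le {L : List Item} {p : Item} (h : Good g L p) : ∀ y ∈ L, tm y ≤ tm p := by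
  induction h with
  | base => simp
  | snoc h1 h2 ih =>
    intro z hz
    rcases List.mem_append.1 hz with hz | hz
    · exact (ih z hz).trans h2.tm_lt.le
    · rw [List.mem_singleton.1 hz]

theorem Good.tm_inj {L : List Item} {p : Item} (h : Good g L p) :
    ∀ y ∈ L, ∀ z ∈ L, tm y = tm z → y = z := by
  induction h with
  | base => simp
  | snoc h1 h2 ih =>
    intro y hy z hz h
    have := h2.tm_lt
    rcases List.mem_append.1 hy with hy | hy <;> rcases List.mem_append.1 hz with hz | hz
    · exact ih y hy z hz h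
    · rw [List.mem_singleton.1 hz] at h; have := h1.tm_le y hy; omega
    · rw [List.mem_singleton.1 hy] at h; have := h1.tm_le z hz; omega
    · rw [List.mem_singleton.1 hz, List.mem_singleton.1 hy]

theorem Good.ix_gt {L : List Item} {p : Item} (h : Good g L p) :
    ∀ y ∈ L, Fol y → ix y ≤ tm y ∧ ∀ z ∈ L, tm z < tm y → tm z < ix y := by
  induction h with
  | base => simp [Fol, root]
  | snoc h1 h2 ih =>
    intro y hy hf
    have := h2.tm_lt
    rcases List.mem_append.1 hy with hy | hy
    · refine ⟨(ih y hy hf).1, fun z hz h => ?_⟩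
      rcases List.mem_append.1 hz with hz | hz
      · exact (ih y hy hf).2 z hz h
      · rw [List.mem_singleton.1 hz] at h; have := h1.tm_le y hy; omega
    · rw [List.mem_singleton.1 hy] at hf ⊢
      have h3 := h2.ix_bounds hf
      refine ⟨h3.2, fun z hz h => ?_⟩
      rcases List.mem_append.1 hz with hz | hz
      · have := h1.tm_le z hz; omega
      · rw [List.mem_singleton.1 hz] at h; omega

theorem Good.ix_inj {L : List Item} {p : Item} (h : Good g L p) {y z : Item} (hy : y ∈ L)
    (hz : z ∈ L) (fy : Fol y) (fz : Fol z) (e : ix y = ix z) : y = z := by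
  have h1 := h.ix_gt y hy fy
  have h2 := h.ix_gt z hz fz
  rcases lt_trichotomy (tm y) (tm z) with h3 | h3 | h3
  · have := h2.2 y hy h3; omega
  · exact h.tm_inj y hy z hz h3
  · have := h1.2 z hz h3; omega

theorem Good.ft_le {L : List Item} {p : Item} (h : Good g L p) : ∀ f ∈ ist p, ft f ≤ tm p := by
  induction h with
  | base => simp [root]
  | snoc h1 h2 ih =>
    cases h2 with
    | R s f rest h3 h4 h5 =>
      intro a ha
      simp only [mkR, ist_mk, tm_mk] at ha ⊢
      exact (ih a (List.mem_of_mem_drop ha)).trans h4.le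
    | U s f rest h3 h4 h5 h6 =>
      intro a ha
      simp only [mkU, ist_mk, tm_mk, List.mem_cons] at ha ⊢
      rcases ha with rfl | ha
      · simp; omega
      · exact (ih a (List.mem_of_mem_drop ha)).trans h4.le
    | H s x sd Q f rest h3 h4 h5 h6 h7 h8 =>
      intro a ha
      simp only [mkH_eq, ist_mk, tm_mk, List.mem_cons] at ha ⊢
      rcases ha with rfl | ha
      · simp
      · have := ih a (by rw [h3]; simpa using ha); omega
    | W s x f rest h3 h4 h5 h6 =>
      intro a ha
      simp only [ist_mk, tm_mk, List.mem_cons] at ha ⊢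
      rcases ha with rfl | ha
      · have := ih f (by rw [h3]; simp); simp; omega
      · have := ih a (by rw [h3]; simp [ha]); omega

end Pool.Agent.P.MP_471da3_lc
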