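import Pool.Agent.Lib.Comp.Oracle

/-!
The golden-run construction: data and the stage function.
-/

namespace Pool.Agent.P.MP_471da3_lc

open Pool.Agent.Lib.Comp Encodable

/-- A call: start stage, budget, weight before, counter, owner, side to tie, final flag. -/
abbrev Frame := ℕ × ℕ × ℕ × ℕ × ℕ × Bool × Bool

/-- kind, time, id, index, level, piece, cumulative weight, side, final flag, stack. -/
abbrev Item := ℕ × ℕ × ℕ × ℕ × ℕ × ℕ × ℕ × Bool × Bool × List Frame

abbrev Entry := ℕ × Bool × List Bool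

def mkF (t P V m o : ℕ) (sd fn : Bool) : Frame := (t, P, V, m, o, sd, fn)
def ft (f : Frame) : ℕ := f.1
def fP (f : Frame) : ℕ := f.2.1
def fV (f : Frame) : ℕ := f.2.2.1
def fm (f : Frame) : ℕ := f.2.2.2.1
def fo (f : Frame) : ℕ := f.2.2.2.2.1
def fs (f : Frame) : Bool := f.2.2.2.2.2.1
def ff (f : Frame) : Bool := f.2.2.2.2.2.2

def mkI (k t x e Q j V : ℕ) (sd fn : Bool) (st : List Frame) : Item :=
  (k, t, x, e, Q, j, V, sd, fn, st)
def ik (i : Item) : ℕ := i.1
def tm (i : Item) : ℕ := i.2.1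
def ix (i : Item) : ℕ := i.2.2.1
def ie (i : Item) : ℕ := i.2.2.2.1
def iQ (i : Item) : ℕ := i.2.2.2.2.1
def ij (i : Item) : ℕ := i.2.2.2.2.2.1
def iV (i : Item) : ℕ := i.2.2.2.2.2.2.1
def isd (i : Item) : Bool := i.2.2.2.2.2.2.2.1
def ifn (i : Item) : Bool := i.2.2.2.2.2.2.2.2.1
def ist (i : Item) : List Frame := i.2.2.2.2.2.2.2.2.2

section simp
variable (t P V m o k x e Q j : ℕ) (sd fn : Bool) (st : List Frame)
@[simp] theorem ft_mk : ft (mkF t P V m o sd fn) = t := rfl
@[simp] theorem fP_mk : fP (mkF t P V m o sd fn) = P := rfl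
@[simp] theorem fV_mk : fV (mkF t P V m o sd fn) = V := rfl
@[simp] theorem fm_mk : fm (mkF t P V m o sd fn) = m := rfl
@[simp] theorem fo_mk : fo (mkF t P V m o sd fn) = o := rfl
@[simp] theorem fs_mk : fs (mkF t P V m o sd fn) = sd := rfl
@[simp] theorem ff_mk : ff (mkF t P V m o sd fn) = fn := rfl
@[simp] theorem ik_mk : ik (mkI k t x e Q j V sd fn st) = k := rfl
@[simp] theorem tm_mk : tm (mkI k t x e Q j V sd fn st) = t := rfl
@[simp] theorem ix_mk : ix (mkI k t x e Q j V sd fn st) = x := rfl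
@[simp] theorem ie_mk : ie (mkI k t x e Q j V sd fn st) = e := rfl
@[simp] theorem iQ_mk : iQ (mkI k t x e Q j V sd fn st) = Q := rfl
@[simp] theorem ij_mk : ij (mkI k t x e Q j V sd fn st) = j := rfl
@[simp] theorem iV_mk : iV (mkI k t x e Q j V sd fn st) = V := rfl
@[simp] theorem isd_mk : isd (mkI k t x e Q j V sd fn st) = sd := rfl
@[simp] theorem ifn_mk : ifn (mkI k t x e Q j V sd fn st) = fn := rfl
@[simp] theorem ist_mk : ist (mkI k t x e Q j V sd fn st) = st := rfl
end simp

section pr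
variable {α : Type*} [Primcodable α]

@[fun_prop] theorem pr_pow2 {f : α → ℕ} (hf : Primrec f) : Primrec (fun x => 2 ^ f x) :=
  (Primrec₂.unpaired'.1 Nat.Primrec.pow).comp (Primrec.const 2) hf

@[fun_prop] theorem pr_mkF {t P V m o : α → ℕ} {sd fn : α → Bool} (h1 : Primrec t)
    (h2 : Primrec P) (h3 : Primrec V) (h4 : Primrec m) (h5 : Primrec o) (h6 : Primrec sd)
    (h7 : Primrec fn) : Primrec fun a => mkF (t a) (P a) (V a) (m a) (o a) (sd a) (fn a) :=
  h1.pair (h2.pair (h3.pair (h4.pair (h5.pair (h6.pair h7)))))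
@[fun_prop] theorem pr_ft {f : α → Frame} (h : Primrec f) : Primrec fun a => ft (f a) := by
  unfold ft; fun_prop
@[fun_prop] theorem pr_fP {f : α → Frame} (h : Primrec f) : Primrec fun a => fP (f a) := by
  unfold fP; fun_prop
@[fun_prop] theorem pr_fV {f : α → Frame} (h : Primrec f) : Primrec fun a => fV (f a) := by
  unfold fV; fun_prop
@[fun_prop] theorem pr_fm {f : α → Frame} (h : Primrec f) : Primrec fun a => fm (f a) := by
  unfold fm; fun_prop
@[fun_prop] theorem pr_fo {f : α → Frame} (h : Primrec f) : Primrec fun a => fo (f a) := by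
  unfold fo; fun_prop
@[fun_prop] theorem pr_fs {f : α → Frame} (h : Primrec f) : Primrec fun a => fs (f a) := by
  unfold fs; fun_prop
@[fun_prop] theorem pr_ff {f : α → Frame} (h : Primrec f) : Primrec fun a => ff (f a) := by
  unfold ff; fun_prop

@[fun_prop] theorem pr_mkI {k t x e Q j V : α → ℕ} {sd fn : α → Bool} {st : α → List Frame}
    (h0 : Primrec k) (h1 : Primrec t) (h2 : Primrec x) (h3 : Primrec e) (h4 : Primrec Q)
    (h5 : Primrec j) (h6 : Primrec V) (h7 : Primrec sd) (h8 : Primrec fn) (h9 : Primrec st) :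
    Primrec fun a => mkI (k a) (t a) (x a) (e a) (Q a) (j a) (V a) (sd a) (fn a) (st a) :=
  h0.pair (h1.pair (h2.pair (h3.pair (h4.pair (h5.pair (h6.pair (h7.pair (h8.pair h9))))))))
@[fun_prop] theorem pr_ik {f : α → Item} (h : Primrec f) : Primrec fun a => ik (f a) := by
  unfold ik; fun_prop
@[fun_prop] theorem pr_tm {f : α → Item} (h : Primrec f) : Primrec fun a => tm (f a) := by
  unfold tm; fun_prop
@[fun_prop] theorem pr_ix {f : α → Item} (h : Primrec f) : Primrec fun a => ix (f a) := by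
  unfold ix; fun_prop
@[fun_prop] theorem pr_ie {f : α → Item} (h : Primrec f) : Primrec fun a => ie (f a) := by
  unfold ie; fun_prop
@[fun_prop] theorem pr_iQ {f : α → Item} (h : Primrec f) : Primrec fun a => iQ (f a) := by
  unfold iQ; fun_prop
@[fun_prop] theorem pr_ij {f : α → Item} (h : Primrec f) : Primrec fun a => ij (f a) := by
  unfold ij; fun_prop
@[fun_prop] theorem pr_iV {f : α → Item} (h : Primrec f) : Primrec fun a => iV (f a) := by
  unfold iV; fun_prop
@[fun_prop] theorem pr_isd {f : α → Item} (h : Primrec f) : Primrec fun a => isd (f a) := by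
  unfold isd; fun_prop
@[fun_prop] theorem pr_ifn {f : α → Item} (h : Primrec f) : Primrec fun a => ifn (f a) := by
  unfold ifn; fun_prop
@[fun_prop] theorem pr_ist {f : α → Item} (h : Primrec f) : Primrec fun a => ist (f a) := by
  unfold ist; fun_prop
end pr

/-- Rescaling of `n / 2 ^ t` to the denominator `2 ^ s`. -/
def sc (n t s : ℕ) : ℕ := n * 2 ^ (s - t)

def KK (g : ℕ) : ℕ := 2 * g + 8
def kk (g : ℕ) : ℕ := 2 ^ (2 * g + 6)

def dF : Frame := mkF 0 0 0 0 0 false false
def top (st : List Frame) : Frame := st.getD 0 dF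
def setm (f : Frame) (m : ℕ) : Frame := mkF (ft f) (fP f) (fV f) m (fo f) (fs f) (ff f)
def root : Item := mkI 0 0 0 0 0 0 0 false false [mkF 0 1 0 0 0 false true]

/-- The `e`-th functional with natural values. -/
def Un (e s : ℕ) (σ : List Bool) (z : ℕ) : Option ℕ :=
  Nat.Partrec.Code.evaln s (Denumerable.ofNat Nat.Partrec.Code e) (encode (σ, z))

def eS (g : ℕ) (S : Bool) : ℕ := cond S g.unpair.1.unpair.2 g.unpair.1.unpair.1

def dsc (g : ℕ) (S : Bool) (s : ℕ) (σ : List Bool) (n : ℕ) : Bool :=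
  (Un (eS g S) s σ (Nat.pair g n)).elim false fun y => ltb y s

def rl (e x s : ℕ) : Bool :=
  eqb (Nat.Partrec.Code.evaln s (Denumerable.ofNat Nat.Partrec.Code e.unpair.1) x) (some 0)

def ret (g : ℕ) (it : Item) : Bool :=
  (eqb (ik it) 4 && ifn it) || (eqb (ist it).length (kk g + 1) || eqb (fP (top (ist it))) 0)

def mkH (g s x e : ℕ) (sd : Bool) (Q V : ℕ) (f : Frame) (rest : List Frame) : Item :=
  mkI 2 s x e Q 0 V sd false
    (cond (leb (V + 2 * Q + 2 ^ (s - (ft f + KK g))) (sc (fP f) (ft f) s + sc (fV f) (ft f) s))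
      (mkF s (2 * Q) V 0 x (!sd) false)
      (mkF s (sc (fP f) (ft f) s + sc (fV f) (ft f) s - (V + 2 ^ (s - (ft f + KK g)))) V 0 x
        (!sd) true) :: f :: rest)

def mkR (s : ℕ) (p : Item) (f : Frame) : Item :=
  mkI 4 s (fo f) 0 0 (sc (fP f) (ft f) s + sc (fV f) (ft f) s - sc (iV p) (tm p) s)
    (sc (iV p) (tm p) s + (sc (fP f) (ft f) s + sc (fV f) (ft f) s - sc (iV p) (tm p) s))
    (fs f) (ff f) ((ist p).drop 1)

def mkU (g s : ℕ) (p : Item) (f : Frame) : Item :=
  mkI 1 s s (fm f) 0 (2 ^ (s - (ft f + KK g + fm f + 1)))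
    (sc (iV p) (tm p) s + 2 ^ (s - (ft f + KK g + fm f + 1))) false false
    (setm f (fm f + 1) :: (ist p).drop 1)

def app (g s : ℕ) (p : Item) : List Item :=
  cond (eqb (ist p).length 0) []
    (cond (ret g p) [mkR s p (top (ist p))]
      (cond (leb (ft (top (ist p)) + KK g + fm (top (ist p)) + 1) s)
        [mkU g s p (top (ist p))] []))

def realize (g s : ℕ) (it : Item) : Item :=
  mkH g s (ix it) (ie it) true (ij it * 2 ^ (s - tm it - 1)) (sc (iV it - ij it) (tm it) s)
    (setm (top (ist it)) (ie it)) ((ist it).drop 1)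

def switch (g s : ℕ) (it : Item) : Item :=
  mkH g s (ix it) (ie it) (!isd it) (2 * sc (iQ it) (tm it) s) (sc (iV it) (tm it) s)
    (top ((ist it).drop 1)) ((ist it).drop 2)

def win (s : ℕ) (it : Item) : Item :=
  mkI 3 s (ix it) (ie it) 0 0 (sc (iV it) (tm it) s) false false
    (setm (top ((ist it).drop 1)) (ie it + 1) :: (ist it).drop 2)

section withap
variable (ap : Bool → ℕ → ℕ → Bool)

def gd (G : List Entry) (s x : ℕ) (S : Bool) : Bool :=
  G.any fun y => eqb y.1 x && (eqb y.2.1 S && eqb y.2.2 (res (ap S s) y.2.2.length))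

def bad (G : List Entry) (s : ℕ) (it : Item) : Bool :=
  cond (eqb (ik it) 1)
    (!(gd ap G s (ix it) false && gd ap G s (ix it) true) || rl (ie it) (ix it) s)
    ((eqb (ik it) 2 || (eqb (ik it) 4 && !ifn it)) && !gd ap G s (ix it) (isd it))

def act (g : ℕ) (G : List Entry) (s : ℕ) (it : Item) : Item :=
  cond (eqb (ik it) 1 && (gd ap G s (ix it) false && gd ap G s (ix it) true)) (realize g s it)
    (cond (eqb (ik it) 2) (cond (gd ap G s (ix it) (!isd it)) (switch g s it) (win s it)) it)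

/-- The side on which a definition is attempted. -/
def att (G : List Entry) (s : ℕ) (it : Item) : Bool :=
  cond (eqb (ik it) 1) (gd ap G s (ix it) false) (isd it)

def nd (g s x : ℕ) (S : Bool) (L : List Item) : List Entry :=
  ((List.range (s + 1)).find? fun k => L.all fun y => dsc g S s (res (ap S s) k) (tm y)).elim []
    fun k => [(x, S, res (ap S s) k)]

def newd (g : ℕ) (G : List Entry) (s : ℕ) (L : List Item) (it : Item) : List Entry :=
  cond (eqb (ik it) 2 || gd ap G s (ix it) (att ap G s it)) []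
    (nd ap g s (ix it) (att ap G s it) (L ++ [it]))

def tw (G : List Entry) (s : ℕ) (L : List Item) : List Item :=
  L.foldr (fun b r => cond (bad ap G s b) [] (b :: r)) []

def step (g s : ℕ) (z : List Item × List Entry) : List Item × List Entry :=
  (z.1[(tw ap z.2 s z.1).length]?).elim
    (z.1 ++ app g s (z.1.getD (z.1.length - 1) root), z.2)
    fun it => (tw ap z.2 s z.1 ++ [act ap g z.2 s it], z.2 ++ newd ap g z.2 s (tw ap z.2 s z.1) it)

def St (g s : ℕ) : List Item × List Entry :=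
  Nat.rec (motive := fun _ => List Item × List Entry) ([root], [])
    (fun n z => step ap g (n + 1) z) s

def LL (g s : ℕ) : List Item := (St ap g s).1
def GG (g s : ℕ) : List Entry := (St ap g s).2

end withap

section pr2
variable {α : Type*} [Primcodable α]

@[fun_prop] theorem pr_sc {n t s : α → ℕ} (h1 : Primrec n) (h2 : Primrec t) (h3 : Primrec s) :
    Primrec fun a => sc (n a) (t a) (s a) := by unfold sc; fun_prop
@[fun_prop] theorem pr_KK {g : α → ℕ} (h1 : Primrec g) : Primrec fun a => KK (g a) := by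
  unfold KK; fun_prop
@[fun_prop] theorem pr_kk {g : α → ℕ} (h1 : Primrec g) : Primrec fun a => kk (g a) := by
  unfold kk; fun_prop
@[fun_prop] theorem pr_top {st : α → List Frame} (h1 : Primrec st) :
    Primrec fun a => top (st a) := by unfold top; fun_prop
@[fun_prop] theorem pr_setm {f : α → Frame} {m : α → ℕ} (h1 : Primrec f) (h2 : Primrec m) :
    Primrec fun a => setm (f a) (m a) := by unfold setm; fun_prop
@[fun_prop] theorem pr_Un {e s : α → ℕ} {σ : α → List Bool} {z : α → ℕ} (he : Primrec e)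
    (hs : Primrec s) (hσ : Primrec σ) (hz : Primrec z) :
    Primrec (fun a => Un (e a) (s a) (σ a) (z a)) := by unfold Un; fun_prop
@[fun_prop] theorem pr_eS {g : α → ℕ} {S : α → Bool} (h1 : Primrec g) (h2 : Primrec S) :
    Primrec fun a => eS (g a) (S a) := by unfold eS; fun_prop
@[fun_prop] theorem pr_dsc {g : α → ℕ} {S : α → Bool} {s : α → ℕ} {σ : α → List Bool}
    {n : α → ℕ} (h1 : Primrec g) (h2 : Primrec S) (h3 : Primrec s) (h4 : Primrec σ)
    (h5 : Primrec n) : Primrec fun a => dsc (g a) (S a) (s a) (σ a) (n a) := by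
  unfold dsc; fun_prop
@[fun_prop] theorem pr_rl {e x s : α → ℕ} (h1 : Primrec e) (h2 : Primrec x) (h3 : Primrec s) :
    Primrec fun a => rl (e a) (x a) (s a) := by unfold rl; fun_prop
@[fun_prop] theorem pr_ret {g : α → ℕ} {i : α → Item} (h1 : Primrec g) (h2 : Primrec i) :
    Primrec fun a => ret (g a) (i a) := by unfold ret; fun_prop
@[fun_prop] theorem pr_mkH {g s x e : α → ℕ} {sd : α → Bool} {Q V : α → ℕ} {f : α → Frame}
    {r : α → List Frame} (h1 : Primrec g) (h2 : Primrec s) (h3 : Primrec x) (h4 : Primrec e)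
    (h5 : Primrec sd) (h6 : Primrec Q) (h7 : Primrec V) (h8 : Primrec f) (h9 : Primrec r) :
    Primrec fun a => mkH (g a) (s a) (x a) (e a) (sd a) (Q a) (V a) (f a) (r a) := by
  unfold mkH; fun_prop
@[fun_prop] theorem pr_mkR {s : α → ℕ} {p : α → Item} {f : α → Frame} (h1 : Primrec s)
    (h2 : Primrec p) (h3 : Primrec f) : Primrec fun a => mkR (s a) (p a) (f a) := by
  unfold mkR; fun_prop
@[fun_prop] theorem pr_mkU {g s : α → ℕ} {p : α → Item} {f : α → Frame} (h0 : Primrec g)
    (h1 : Primrec s) (h2 : Primrec p) (h3 : Primrec f) :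
    Primrec fun a => mkU (g a) (s a) (p a) (f a) := by
  unfold mkU; fun_prop
@[fun_prop] theorem pr_app {g s : α → ℕ} {p : α → Item} (h0 : Primrec g)
    (h1 : Primrec s) (h2 : Primrec p) : Primrec fun a => app (g a) (s a) (p a) := by
  unfold app; fun_prop
@[fun_prop] theorem pr_realize {g s : α → ℕ} {p : α → Item} (h0 : Primrec g)
    (h1 : Primrec s) (h2 : Primrec p) : Primrec fun a => realize (g a) (s a) (p a) := by
  unfold realize; fun_prop
@[fun_prop] theorem pr_switch {g s : α → ℕ} {p : α → Item} (h0 : Primrec g)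
    (h1 : Primrec s) (h2 : Primrec p) : Primrec fun a => switch (g a) (s a) (p a) := by
  unfold switch; fun_prop
@[fun_prop] theorem pr_win {s : α → ℕ} {p : α → Item}
    (h1 : Primrec s) (h2 : Primrec p) : Primrec fun a => win (s a) (p a) := by
  unfold win; fun_prop

variable {ap : Bool → ℕ → ℕ → Bool} (hap : Primrec fun p : Bool × ℕ × ℕ => ap p.1 p.2.1 p.2.2)
include hap

theorem pr_ap {S : α → Bool} {s x : α → ℕ} (h1 : Primrec S) (h2 : Primrec s) (h3 : Primrec x) :
    Primrec fun a => ap (S a) (s a) (x a) := hap.comp (h1.pair (h2.pair h3))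

theorem pr_rap {S : α → Bool} {s k : α → ℕ} (h1 : Primrec S) (h2 : Primrec s) (h3 : Primrec k) :
    Primrec fun a => res (ap (S a) (s a)) (k a) :=
  pr_res (D := fun a => ap (S a) (s a))
    (pr_ap hap (h1.comp Primrec.fst) (h2.comp Primrec.fst) Primrec.snd) h3

theorem pr_gd {G : α → List Entry} {s x : α → ℕ} {S : α → Bool} (h1 : Primrec G)
    (h2 : Primrec s) (h3 : Primrec x) (h4 : Primrec S) :
    Primrec fun a => gd ap (G a) (s a) (x a) (S a) := by
  unfold gd
  refine pr_any h1 (pr_and (by fun_prop) (pr_and (by fun_prop) (pr_eqb (by fun_prop) ?_)))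
  exact pr_rap hap (by fun_prop) (by fun_prop) (by fun_prop)

theorem pr_bad {G : α → List Entry} {s : α → ℕ} {i : α → Item} (h1 : Primrec G)
    (h2 : Primrec s) (h3 : Primrec i) : Primrec fun a => bad ap (G a) (s a) (i a) := by
  unfold bad
  have a1 := pr_gd hap h1 h2 (pr_ix h3) (Primrec.const false)
  have a2 := pr_gd hap h1 h2 (pr_ix h3) (Primrec.const true)
  have a3 := pr_gd hap h1 h2 (pr_ix h3) (pr_isd h3)
  exact pr_cond (by fun_prop) (pr_or (pr_not (pr_and a1 a2)) (by fun_prop))
    (pr_and (by fun_prop) (pr_not a3))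

theorem pr_act {g : α → ℕ} {G : α → List Entry} {s : α → ℕ} {i : α → Item} (h0 : Primrec g)
    (h1 : Primrec G) (h2 : Primrec s) (h3 : Primrec i) :
    Primrec fun a => act ap (g a) (G a) (s a) (i a) := by
  unfold act
  have a1 := pr_gd hap h1 h2 (pr_ix h3) (Primrec.const false)
  have a2 := pr_gd hap h1 h2 (pr_ix h3) (Primrec.const true)
  have a3 := pr_gd hap h1 h2 (pr_ix h3) (pr_not (pr_isd h3))
  exact pr_cond (pr_and (by fun_prop) (pr_and a1 a2)) (pr_realize h0 h2 h3)
    (pr_cond (by fun_prop) (pr_cond a3 (pr_switch h0 h2 h3) (pr_win h2 h3)) h3)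

theorem pr_att {G : α → List Entry} {s : α → ℕ} {i : α → Item} (h1 : Primrec G)
    (h2 : Primrec s) (h3 : Primrec i) : Primrec fun a => att ap (G a) (s a) (i a) := by
  unfold att
  exact pr_cond (by fun_prop) (pr_gd hap h1 h2 (pr_ix h3) (Primrec.const false)) (pr_isd h3)

theorem pr_nd {g s x : α → ℕ} {S : α → Bool} {L : α → List Item} (h0 : Primrec g)
    (h1 : Primrec s) (h2 : Primrec x) (h3 : Primrec S) (h4 : Primrec L) :
    Primrec fun a => nd ap (g a) (s a) (x a) (S a) (L a) := by
  unfold nd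
  refine pr_optElim (pr_find? (by fun_prop) (pr_all (by fun_prop) ?_)) (by fun_prop) ?_
  · exact pr_dsc (by fun_prop) (by fun_prop) (by fun_prop)
      (pr_rap hap (by fun_prop) (by fun_prop) (by fun_prop)) (by fun_prop)
  · exact pr_cons (pr_pair (by fun_prop) (pr_pair (by fun_prop)
      (pr_rap hap (by fun_prop) (by fun_prop) (by fun_prop)))) (by fun_prop)

theorem pr_newd {g : α → ℕ} {G : α → List Entry} {s : α → ℕ} {L : α → List Item} {i : α → Item}
    (h0 : Primrec g) (h1 : Primrec G) (h2 : Primrec s) (h3 : Primrec L) (h4 : Primrec i) :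
    Primrec fun a => newd ap (g a) (G a) (s a) (L a) (i a) := by
  unfold newd
  have a1 := pr_att hap h1 h2 h4
  exact pr_cond (pr_or (by fun_prop) (pr_gd hap h1 h2 (pr_ix h4) a1)) (Primrec.const _)
    (pr_nd hap h0 h2 (pr_ix h4) a1 (by fun_prop))

theorem pr_tw {G : α → List Entry} {s : α → ℕ} {L : α → List Item} (h1 : Primrec G)
    (h2 : Primrec s) (h3 : Primrec L) : Primrec fun a => tw ap (G a) (s a) (L a) := by
  unfold tw
  refine pr_foldr h3 (Primrec.const _) (pr_cond ?_ (Primrec.const _) (by fun_prop))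
  exact pr_bad hap (h1.comp Primrec.fst) (h2.comp Primrec.fst) (by fun_prop)

theorem pr_step {g s : α → ℕ} {z : α → List Item × List Entry} (h0 : Primrec g)
    (h1 : Primrec s) (h2 : Primrec z) : Primrec fun a => step ap (g a) (s a) (z a) := by
  unfold step
  have z1 := pr_fst h2
  have z2 := pr_snd h2
  have a1 := pr_tw hap z2 h1 z1
  refine pr_optElim (pr_getElem? z1 (pr_length a1))
    (pr_pair (pr_append z1 (pr_app h0 h1 (by fun_prop))) z2) (pr_pair ?_ ?_)
  · exact pr_append (a1.comp Primrec.fst) (pr_cons (pr_act hap (h0.comp Primrec.fst)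
      (z2.comp Primrec.fst) (h1.comp Primrec.fst) Primrec.snd) (Primrec.const _))
  · exact pr_append (z2.comp Primrec.fst) (pr_newd hap (h0.comp Primrec.fst)
      (z2.comp Primrec.fst) (h1.comp Primrec.fst) (a1.comp Primrec.fst) Primrec.snd)

theorem pr_St {g s : α → ℕ} (h0 : Primrec g) (h1 : Primrec s) :
    Primrec fun a => St ap (g a) (s a) := by
  unfold St
  exact pr_natRec h1 (Primrec.const _) (pr_step hap (h0.comp Primrec.fst)
    (pr_add (pr_fst Primrec.snd) (Primrec.const 1)) (pr_snd Primrec.snd))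

theorem pr_LL {g s : α → ℕ} (h0 : Primrec g) (h1 : Primrec s) :
    Primrec fun a => LL ap (g a) (s a) := pr_fst (pr_St hap h0 h1)

theorem pr_GG {g s : α → ℕ} (h0 : Primrec g) (h1 : Primrec s) :
    Primrec fun a => GG ap (g a) (s a) := pr_snd (pr_St hap h0 h1)

end pr2

end Pool.Agent.P.MP_471da3_lc
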