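import Pool.Agent.P.MP_471da3_lc.Step

/-!
Invariants linking the log of definitions with the descriptions of pieces.
-/

namespace Pool.Agent.P.MP_471da3_lc

open Pool.Agent.Lib.Comp

variable {g : ℕ} {ap : Bool → ℕ → ℕ → Bool}

/-- The string is an initial segment of the stage `s` approximation. -/
def Val (ap : Bool → ℕ → ℕ → Bool) (S : Bool) (s : ℕ) (σ : List Bool) : Prop :=
  σ = res (ap S s) σ.length

theorem gd_true {G : List Entry} {s x : ℕ} {S : Bool} :
    gd ap G s x S = true ↔ ∃ σ, (x, S, σ) ∈ G ∧ Val ap S s σ := by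
  unfold gd Val
  simp only [List.any_eq_true, Bool.and_eq_true, eqb_true]
  constructor
  · rintro ⟨⟨a, b, σ⟩, h, rfl, rfl, h3⟩
    exact ⟨σ, h, h3⟩
  · rintro ⟨σ, h, h3⟩
    exact ⟨_, h, rfl, rfl, h3⟩

/-- The approximations are increasing. -/
def Mono (ap : Bool → ℕ → ℕ → Bool) : Prop :=
  ∀ S s t x, s ≤ t → ap S s x = true → ap S t x = true

theorem Val.between (hm : Mono ap) {S : Bool} {a b c : ℕ} {σ : List Bool} (h1 : Val ap S a σ)
    (h2 : Val ap S c σ) (hab : a ≤ b) (hbc : b ≤ c) : Val ap S b σ := by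
  unfold Val at *
  have h3 := res_eq_iff.1 (h1.symm.trans h2)
  refine h1.trans (res_congr fun x hx => ?_)
  have e1 := h3 x hx
  have e2 := hm S a b x hab
  have e3 := hm S b c x hbc
  rw [← e1] at e3
  exact Bool.eq_iff_iff.2 ⟨e2, e3⟩

theorem mem_nd {s x : ℕ} {S : Bool} {L : List Item} {e : Entry} (h : e ∈ nd ap g s x S L) :
    ∃ σ, e = (x, S, σ) ∧ Val ap S s σ ∧ ∀ y ∈ L, dsc g S s σ (tm y) = true := by
  unfold nd at h
  cases hf : (List.range (s + 1)).find? fun k =>
      L.all fun y => dsc g S s (res (ap S s) k) (tm y) with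
  | none => rw [hf] at h; simp at h
  | some k =>
    rw [hf] at h
    refine ⟨_, List.mem_singleton.1 h, by simp [Val], ?_⟩
    simpa using List.find?_some hf

theorem ix_le_of_bad {s : ℕ} {L1 L2 : List Item} {it p : Item}
    (h1 : LL ap g s = L1 ++ it :: L2) (h2 : Good g L1 p) (h3 : Nx g p it)
    (h : ik it = 1 ∨ (ik it = 4 ∧ ifn it = false)) : ix it ≤ s := by
  have a := tm_le_of_mem (ap := ap) (g := g) (s := s) (y := it) (by rw [h1]; simp)
  rcases h with h | h
  · have := (h3.ix_bounds (Or.inl h)).2; omega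
  · obtain ⟨y, hy, b1, b2, -⟩ := (h2.snoc h3).rlink h.1 h.2
    have := (h2.ix_gt y hy (Or.inr (Or.inl b1))).1
    have := tm_le_of_mem (ap := ap) (g := g) (s := s) (y := y) (by rw [h1]; simp [hy])
    omega

theorem mem_GG_succ {s : ℕ} {e : Entry} (h : e ∈ GG ap g (s + 1)) : e ∈ GG ap g s ∨
    ∃ L1 it L2 p S σ, LL ap g s = L1 ++ it :: L2 ∧ Good g L1 p ∧ Nx g p it ∧
      LL ap g (s + 1) = L1 ++ [it] ∧ e = (ix it, S, σ) ∧ Val ap S (s + 1) σ ∧
      (∀ y ∈ L1 ++ [it], dsc g S (s + 1) σ (tm y) = true) ∧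
      gd ap (GG ap g s) (s + 1) (ix it) S = false ∧
      (ik it = 1 ∨ (ik it = 4 ∧ ifn it = false ∧ S = isd it)) := by
  rcases tr ap g s with ⟨p, h1, h2, h3, h4, h5⟩ |
    ⟨L1, it, L2, p, h1, h2, h3, h4, h5, h6, h7, h8⟩
  · left; rwa [h5] at h
  rw [h8] at h
  rcases List.mem_append.1 h with h | h
  · exact Or.inl h
  rcases act_cases (g := g) L1 h6 with ⟨-, -, -, -, a⟩ | ⟨-, -, -, -, a⟩ | ⟨-, -, -, a⟩ |
    ⟨S, a1, a2, a, a3⟩ <;> rw [a] at h
  · simp at h
  · simp at h
  · simp at h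
  obtain ⟨σ, b1, b2, b3⟩ := mem_nd h
  rw [a2] at h7
  exact Or.inr ⟨L1, it, L2, p, S, σ, h1, h2, h3, h7, b1, b2, b3, a1, by tauto⟩

theorem entry_spec {s x : ℕ} {S : Bool} {σ : List Bool} (h : (x, S, σ) ∈ GG ap g s) :
    ∃ t ≤ s, x ≤ t ∧ Val ap S t σ := by
  induction s with
  | zero => simp [GG, St] at h
  | succ s ih =>
    rcases mem_GG_succ h with h | ⟨L1, it, L2, p, S', σ', h1, h2, h3, h4, h5, h6, h7, h8, h9⟩
    · obtain ⟨t, a, b⟩ := ih h
      exact ⟨t, by omega, b⟩
    · simp only [Prod.mk.injEq] at h5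
      obtain ⟨rfl, rfl, rfl⟩ := h5
      have := ix_le_of_bad h1 h2 h3 (by tauto)
      exact ⟨s + 1, le_rfl, by omega, h6⟩

theorem val_pred (hm : Mono ap) {s x : ℕ} {S : Bool} {σ : List Bool} (h : (x, S, σ) ∈ GG ap g s)
    (hv : Val ap S (s + 1) σ) : Val ap S s σ := by
  obtain ⟨t, a, -, b⟩ := entry_spec h
  exact b.between hm hv a (Nat.le_succ s)

/-- Numerator of the weight of the piece created at stage `n`. -/
def jj (ap : Bool → ℕ → ℕ → Bool) (g n : ℕ) : ℕ :=
  ((LL ap g n).find? fun y => eqb (tm y) n).elim 0 ij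

/-- The piece created at stage `n` is present at stage `s`. -/
def alive (ap : Bool → ℕ → ℕ → Bool) (g n s : ℕ) : Bool := (LL ap g s).any fun y => eqb (tm y) n

theorem alive_true {n s : ℕ} : alive ap g n s = true ↔ ∃ y ∈ LL ap g s, tm y = n := by
  simp [alive]

theorem jj_eq {s : ℕ} {y : Item} (hy : y ∈ LL ap g s) : jj ap g (tm y) = ij y := by
  have h := mem_LL_of_le hy le_rfl (tm_le_of_mem hy)
  obtain ⟨p, hp, -⟩ := good_LL ap g (tm y)
  unfold jj
  cases hf : (LL ap g (tm y)).find? fun z => eqb (tm z) (tm y) with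
  | none =>
    have := List.find?_eq_none.1 hf y h
    simp at this
  | some z =>
    have h1 := List.mem_of_find?_eq_some hf
    have h2 : tm z = tm y := by simpa using List.find?_some hf
    rw [hp.tm_inj z h1 y h h2]; rfl

/-- Weight of the piece created at stage `n`. -/
noncomputable def pw (ap : Bool → ℕ → ℕ → Bool) (g n : ℕ) : ℝ := v (jj ap g n) n

theorem pw_eq {s : ℕ} {y : Item} (hy : y ∈ LL ap g s) : pw ap g (tm y) = wt y := by
  unfold pw wt; rw [jj_eq hy]

/-- The string describes the piece at a stage at which the piece is present. -/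
def Dsc (ap : Bool → ℕ → ℕ → Bool) (g : ℕ) (S : Bool) (σ : List Bool) (n : ℕ) : Prop :=
  ∃ s, alive ap g n s = true ∧ dsc g S s σ n = true

open Classical in
noncomputable def phi (ap : Bool → ℕ → ℕ → Bool) (g : ℕ) (S : Bool) (σ : List Bool) (n : ℕ) : ℝ :=
  if Dsc ap g S σ n then pw ap g n else 0

theorem phi_nonneg (S : Bool) (σ : List Bool) (n : ℕ) : 0 ≤ phi ap g S σ n := by
  unfold phi; split_ifs
  · exact v_nonneg _ _
  · exact le_rfl

noncomputable def cov (ap : Bool → ℕ → ℕ → Bool) (g : ℕ) (S : Bool) (σ : List Bool)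
    (a b : ℕ) : ℝ := ∑ n ∈ Finset.Ico a b, phi ap g S σ n

theorem cov_mono (S : Bool) (σ : List Bool) (a : ℕ) {b c : ℕ} (h : b ≤ c) :
    cov ap g S σ a b ≤ cov ap g S σ a c :=
  Finset.sum_le_sum_of_subset_of_nonneg (Finset.Ico_subset_Ico_right h)
    fun n _ _ => phi_nonneg S σ n

/-- How new items arise. -/
theorem new_cases {s : ℕ} {y : Item} (hy : y ∈ LL ap g (s + 1)) : y ∈ LL ap g s ∨ ik y = 4 ∨
    (ik y = 1 ∧ ix y = s + 1) ∨ ∃ z ∈ LL ap g s, ix y = ix z ∧ ie y = ie z ∧ tm y = s + 1 ∧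
      ((ik z = 1 ∧ ik y = 2 ∧ rl (ie z) (ix z) (s + 1) = true ∧ 2 * qq y = wt z ∧
          (ist y).length = (ist z).length + 1) ∨
        (ik z = 2 ∧ ik y = 2 ∧ gd ap (GG ap g s) (s + 1) (ix z) (isd z) = false ∧
          gd ap (GG ap g s) (s + 1) (ix z) (!isd z) = true ∧ isd y = (!isd z) ∧
          qq y = 2 * qq z ∧ (ist y).length = (ist z).length) ∨
        (ik z = 2 ∧ ik y = 3 ∧ (∀ S, gd ap (GG ap g s) (s + 1) (ix z) S = false) ∧
          (ist y).length + 1 = (ist z).length)) := by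
  rcases tr ap g s with ⟨p, h1, h2, h3, h4, h5⟩ |
    ⟨L1, it, L2, p, h1, h2, h3, h4, h5, h6, h7, h8⟩
  · rw [h4] at hy
    rcases List.mem_append.1 hy with hy | hy
    · exact Or.inl hy
    · rcases app_cases (g := g) (Nat.lt_succ_of_le h2) with ⟨h6, -⟩ | ⟨z, h6, h7, h8, h9⟩ <;>
        rw [h6] at hy
      · simp at hy
      · rw [List.mem_singleton.1 hy]; tauto
  rw [h7] at hy
  rcases List.mem_append.1 hy with hy | hy
  · left; simp [h1, hy]
  have hi : it ∈ LL ap g s := by simp [h1]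
  have hs := Nat.lt_succ_of_le h4
  rw [List.mem_singleton.1 hy]
  rcases act_cases (g := g) L1 h6 with ⟨a1, a2, a3, a, -⟩ | ⟨a1, a2, a3, a, -⟩ | ⟨a1, a2, a, -⟩ |
    ⟨S, -, a, -⟩ <;> rw [a]
  · obtain ⟨-, -, b1, b2⟩ := h3.realize a1 hs
    exact Or.inr (Or.inr (Or.inr ⟨it, hi, rfl, rfl, rfl, Or.inl ⟨a1, rfl, a3, b1, b2⟩⟩))
  · obtain ⟨-, b1, b2⟩ := h3.switch a1 hs
    exact Or.inr (Or.inr (Or.inr ⟨it, hi, rfl, rfl, rfl,
      Or.inr (Or.inl ⟨a1, rfl, a2, a3, rfl, b1, b2⟩)⟩))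
  · obtain ⟨-, b1⟩ := h3.win a1 hs
    exact Or.inr (Or.inr (Or.inr ⟨it, hi, rfl, rfl, rfl, Or.inr (Or.inr ⟨a1, rfl, a2, b1⟩)⟩))
  · exact Or.inl hi

theorem realized {s : ℕ} {y : Item} (hy : y ∈ LL ap g s) (h : ik y = 2 ∨ ik y = 3) :
    ∃ t, rl (ie y) (ix y) t = true := by
  induction s generalizing y with
  | zero =>
    obtain rfl : y = root := by simpa [LL, St] using hy
    simp [root] at h
  | succ s ih =>
    rcases new_cases hy with a | a | a | ⟨z, hz, e1, e2, -, a | a | a⟩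
    · exact ih a h
    · omega
    · omega
    · rw [e1, e2]; exact ⟨_, a.2.2.1⟩
    · rw [e1, e2]; exact ih hz (Or.inl a.1)
    · rw [e1, e2]; exact ih hz (Or.inl a.1)

theorem U_ix {p y : Item} (h : Nx g p y) (h1 : ik y = 1) : ix y = tm y :=
  (h.realize h1 (Nat.lt_succ_self _)).2.1

theorem wt_le_of_mem {s : ℕ} {y : Item} (hy : y ∈ LL ap g s) : wt y ≤ 1 := by
  obtain ⟨p, hp, -⟩ := good_LL ap g s
  exact hp.wt_le hy

theorem cover (hm : Mono ap) (s : ℕ) : ∀ y ∈ LL ap g s, ∀ S σ, (ix y, S, σ) ∈ GG ap g s →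
    Val ap S s σ → (ik y = 1 → wt y ≤ cov ap g S σ (ix y) (s + 1)) ∧
      (ik y = 2 → (S = isd y → qq y ≤ cov ap g S σ (ix y) (tm y)) ∧
        (S = (!isd y) → 2 * qq y ≤ cov ap g S σ (ix y) (s + 1) ∧ 2 * qq y ≤ 1)) := by
  induction s with
  | zero => intro y _ S σ h; simp [GG, St] at h
  | succ s ih =>
    intro y hy S σ he hv
    have mo := cov_mono (ap := ap) (g := g) S σ (ix y) (Nat.le_succ (s + 1))
    rcases mem_GG_succ he with he | ⟨L1, it, L2, p, S', σ', h1, h2, h3, h4, h5, h6, h7, h8, h9⟩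
    · have hv' := val_pred hm he hv
      rcases new_cases hy with a | a | a | ⟨z, hz, e1, e2, e3, a | a | a⟩
      · obtain ⟨b1, b2⟩ := ih y a S σ he hv'
        exact ⟨fun h => (b1 h).trans mo, fun h => ⟨(b2 h).1,
          fun h' => ⟨((b2 h).2 h').1.trans mo, ((b2 h).2 h').2⟩⟩⟩
      · exact ⟨by omega, by omega⟩
      · obtain ⟨t, b1, b2, -⟩ := entry_spec he
        omega
      · rw [e1] at he mo ⊢
        have b := (ih z hz S σ he hv').1 a.1
        have c := wt_le_of_mem hz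
        have d := qq_nonneg y
        have e := a.2.2.2.1
        rw [e3]
        exact ⟨by omega, fun _ => ⟨fun _ => by linarith, fun _ => ⟨by linarith, by linarith⟩⟩⟩
      · rw [e1] at he mo ⊢
        obtain ⟨a1, a2, a3, a4, a5, a6, a7⟩ := a
        rw [e3, a5, a6]
        refine ⟨by omega, fun _ => ⟨fun h => (((ih z hz S σ he hv').2 a1).2 h).1, fun h => ?_⟩⟩
        have : gd ap (GG ap g s) (s + 1) (ix z) (isd z) = true :=
          gd_true.2 ⟨σ, by simpa [h] using he, by simpa [h] using hv⟩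
        rw [a3] at this; exact absurd this (by simp)
      · exact ⟨by omega, by omega⟩
    · simp only [Prod.mk.injEq] at h5
      obtain ⟨e1, rfl, rfl⟩ := h5
      have hg := h2.snoc h3
      have hphi : ∀ z ∈ L1 ++ [it], wt z ≤ phi ap g S σ (tm z) := by
        intro z hz
        have : Dsc ap g S σ (tm z) := ⟨s + 1, alive_true.2 ⟨z, h4 ▸ hz, rfl⟩, h7 z hz⟩
        rw [phi, if_pos this, pw_eq (s := s + 1) (h4 ▸ hz)]
      have hs : tm it ≤ s := tm_le_of_mem (ap := ap) (g := g) (by rw [h1]; simp)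
      rw [h4] at hy
      rcases h9 with h9 | ⟨h9, h10, h11⟩
      · have key : Fol y → y = it := fun hf => hg.ix_inj hy (by simp) hf (Or.inl h9) e1
        refine ⟨fun h => ?_, fun h => ?_⟩
        · rw [key (Or.inl h), U_ix h3 h9]
          refine (hphi it (by simp)).trans (Finset.single_le_sum (f := phi ap g S σ)
            (fun n _ => phi_nonneg S σ n) ?_)
          simp only [Finset.mem_Ico]; omega
        · have := key (Or.inr (Or.inl h))
          rw [this] at h; omega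
      · obtain ⟨z, hz, b1, b2, b3, b4⟩ := hg.rlink h9 h10
        have hz' : z ∈ L1 ++ [it] := List.mem_append_left _ hz
        have key : Fol y → y = z := fun hf =>
          hg.ix_inj hy hz' hf (Or.inr (Or.inl b1)) (e1.trans b2.symm)
        refine ⟨fun h => ?_, fun h => ?_⟩
        · have := key (Or.inl h)
          rw [this] at h; omega
        rw [key (Or.inr (Or.inl h))]
        refine ⟨fun h => ?_, fun _ => ⟨?_, ?_⟩⟩
        · rw [h11, b3] at h; simp at h
        · have c1 := hg.sum_Ioc (phi_nonneg S σ) hphi z hz'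
          have c2 := (hg.ix_gt z hz' (Or.inr (Or.inl b1))).1
          have c3 : ∑ n ∈ Finset.Ioc (tm z) (tm it), phi ap g S σ n ≤
              cov ap g S σ (ix z) (s + 1 + 1) := by
            refine Finset.sum_le_sum_of_subset_of_nonneg ?_ fun n _ _ => phi_nonneg S σ n
            intro n hn
            simp only [Finset.mem_Ioc, Finset.mem_Ico] at hn ⊢
            omega
          linarith
        · have := hg.vV_le
          have := vV_nonneg z
          linarith

theorem qq_le_one (hm : Mono ap) {s : ℕ} {y : Item} (hy : y ∈ LL ap g s) (h : ik y = 2) :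
    qq y ≤ 1 := by
  induction s generalizing y with
  | zero =>
    obtain rfl : y = root := by simpa [LL, St] using hy
    simp [root] at h
  | succ s ih =>
    rcases new_cases hy with a | a | a | ⟨z, hz, e1, e2, -, a | a | a⟩
    · exact ih a h
    · omega
    · omega
    · have := wt_le_of_mem hz
      have := a.2.2.2.1
      have := qq_nonneg y
      linarith
    · obtain ⟨a1, a2, a3, a4, a5, a6, a7⟩ := a
      obtain ⟨σ, b1, b2⟩ := gd_true.1 a4
      rw [a6]
      exact (((cover hm s z hz _ σ b1 (val_pred hm b1 b2)).2 a1).2 rfl).2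
    · omega

end Pool.Agent.P.MP_471da3_lc
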