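import Pool.Agent.P.MP_471da3_lc.Stab

/-!
The golden call and the noncomputable c.e. set below both sides.
-/

namespace Pool.Agent.P.MP_471da3_lc

open Pool.Agent.Lib.Comp Filter Encodable

variable {g : ℕ} {ap : Bool → ℕ → ℕ → Bool} {A : Bool → ℕ → Bool}

/-- The frame at level `l`, counted from the bottom of the stack. -/
def fr (l : ℕ) (st : List Frame) : Frame := top (st.drop (st.length - l))

theorem fr_cons_le {l : ℕ} {a : Frame} {st : List Frame} (h : l ≤ st.length) :
    fr l (a :: st) = fr l st := by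
  unfold fr
  rw [List.length_cons, Nat.succ_sub h, List.drop_succ_cons]

theorem fr_cons_eq {l : ℕ} {a : Frame} {st : List Frame} (h : l = st.length + 1) :
    fr l (a :: st) = a := by
  unfold fr
  rw [h, List.length_cons, Nat.sub_self, List.drop_zero, top_cons]

theorem Nx.lev {p y : Item} (h : Nx g p y) {l : ℕ} (h1 : l ≤ (ist p).length)
    (h2 : l ≤ (ist y).length) :
    ft (fr l (ist y)) = ft (fr l (ist p)) ∧ fo (fr l (ist y)) = fo (fr l (ist p)) ∧
      fs (fr l (ist y)) = fs (fr l (ist p)) ∧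
      ((fm (fr l (ist y)) = fm (fr l (ist p)) ∧ ((ist p).length = l →
          1 / 2 ^ (ft (fr l (ist p)) + KK g + fm (fr l (ist p)) + 2) ≤ qq y)) ∨
        ((ist y).length = l ∧ fm (fr l (ist y)) = fm (fr l (ist p)) + 1 ∧
          ie y = fm (fr l (ist p)) ∧ (ik y = 1 ∨ ik y = 3))) := by
  have main : ∀ (f : Frame) (rest : List Frame), ist p = f :: rest →
      ist y = setm f (fm f + 1) :: rest → ie y = fm f → (ik y = 1 ∨ ik y = 3) →
      ft (fr l (ist y)) = ft (fr l (ist p)) ∧ fo (fr l (ist y)) = fo (fr l (ist p)) ∧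
      fs (fr l (ist y)) = fs (fr l (ist p)) ∧
      ((fm (fr l (ist y)) = fm (fr l (ist p)) ∧ ((ist p).length = l →
          1 / 2 ^ (ft (fr l (ist p)) + KK g + fm (fr l (ist p)) + 2) ≤ qq y)) ∨
        ((ist y).length = l ∧ fm (fr l (ist y)) = fm (fr l (ist p)) + 1 ∧
          ie y = fm (fr l (ist p)) ∧ (ik y = 1 ∨ ik y = 3))) := by
    intro f rest e1 e2 e3 e4
    rw [e1] at h1
    rw [e1, e2]
    rcases Nat.lt_or_ge rest.length l with a | a
    · have b : l = rest.length + 1 := by simp at h1; omega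
      rw [fr_cons_eq b, fr_cons_eq b]
      exact ⟨rfl, rfl, rfl, Or.inr ⟨by simp [b], rfl, e3, e4⟩⟩
    · rw [fr_cons_le a, fr_cons_le a]
      exact ⟨rfl, rfl, rfl, Or.inl ⟨rfl, fun h => by simp at h; omega⟩⟩
  cases h with
  | R s f rest h3 h4 h5 =>
    have e : ist (mkR s p f) = rest := by simp [mkR, h3]
    rw [e] at h2
    rw [e, h3, fr_cons_le h2]
    exact ⟨rfl, rfl, rfl, Or.inl ⟨rfl, fun h => by simp at h; omega⟩⟩
  | U s f rest h3 h4 h5 h6 => exact main f rest h3 (by simp [mkU, h3]) rfl (Or.inl rfl)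
  | W s x f rest h3 h4 h5 h6 => exact main f rest h3 rfl rfl (Or.inr rfl)
  | H s x sd Q f rest h3 h4 h5 h6 h7 h8 =>
    rw [h3] at h1
    rw [mkH_eq, ist_mk, fr_cons_le h1, h3]
    refine ⟨rfl, rfl, rfl, Or.inl ⟨rfl, fun h => ?_⟩⟩
    rw [fr_cons_eq h.symm, ← v_pow h7]
    exact v_le_iff.2 h8

theorem Nx.drop {p y : Item} (h : Nx g p y) (h1 : (ist y).length < (ist p).length) :
    ik y = 4 ∧ (ist y).length + 1 = (ist p).length ∧ ix y = fo (fr (ist p).length (ist p)) ∧
      isd y = fs (fr (ist p).length (ist p)) := by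
  cases h with
  | R s f rest h3 h4 h5 =>
    rw [h3, fr_cons_eq (by simp)]
    exact ⟨rfl, by simp [mkR, h3], rfl, rfl⟩
  | U s f rest h3 h4 h5 h6 => simp [mkU, h3] at h1
  | W s x f rest h3 h4 h5 h6 => simp [h3] at h1
  | H s x sd Q f rest h3 h4 h5 h6 h7 h8 => simp [mkH, h3] at h1

theorem Nx.of_fin {p y : Item} (h : Nx g p y) (h1 : ik p = 4) (h2 : ifn p = true) :
    (ist y).length < (ist p).length := by
  have : ret g p = true := by simp [ret, h1, h2]
  cases h with
  | R s f rest h3 h4 h5 => simp [mkR, h3]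
  | U s f rest h3 h4 h5 h6 => simp [this] at h5
  | W s x f rest h3 h4 h5 h6 => simp [this] at h6
  | H s x sd Q f rest h3 h4 h5 h6 h7 h8 => simp [this] at h6

theorem Nx.child_top {p y : Item} (h : Nx g p y) (h1 : ik y = 2) :
    fo (fr (ist y).length (ist y)) = ix y ∧ fs (fr (ist y).length (ist y)) = !isd y := by
  cases h with
  | R s f rest h3 h4 h5 => simp [mkR] at h1
  | U s f rest h3 h4 h5 h6 => simp [mkU] at h1
  | W s x f rest h3 h4 h5 h6 => simp at h1
  | H s x sd Q f rest h3 h4 h5 h6 h7 h8 =>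
    rw [mkH_eq, ist_mk, fr_cons_eq (by simp)]
    simp

/-- The combinatorial content of the golden call. -/
theorem golden {Λ : ℕ → Item} (h1 : ∀ i, Nx g (Λ i) (Λ (i + 1))) {B : ℕ}
    (h2 : ∀ i, (ist (Λ i)).length ≤ B) {C : ℝ}
    (h3 : ∀ i, ∑ j ∈ Finset.range (i + 1), qq (Λ j) ≤ C) :
    ∃ l i0 m0 : ℕ, (∀ e, m0 ≤ e → ∃ j, i0 < j ∧ ie (Λ j) = e ∧ (ist (Λ j)).length = l ∧
        (ik (Λ j) = 1 ∨ ik (Λ j) = 3)) ∧
      ∀ i, i0 < i → ik (Λ i) = 2 → (ist (Λ i)).length = l + 1 →
        ∃ j, ik (Λ j) = 4 ∧ ifn (Λ j) = false ∧ ix (Λ j) = ix (Λ i) ∧ isd (Λ j) = !isd (Λ i) := by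
  classical
  have hP : ∃ n, ∃ᶠ i in atTop, (ist (Λ i)).length ≤ n := ⟨B, Frequently.of_forall h2⟩
  set l := Nat.find hP with hl
  have a1 : ∀ᶠ i in atTop, l ≤ (ist (Λ i)).length := by
    rcases Nat.eq_zero_or_pos l with h | h
    · exact Eventually.of_forall fun i => by omega
    · have := Nat.find_min hP (m := l - 1) (by omega)
      rw [not_frequently] at this
      exact this.mono fun i hi => by omega
  have a2 : ∃ᶠ i in atTop, (ist (Λ i)).length = l :=
    ((Nat.find_spec hP).and_eventually a1).mono fun i hi => le_antisymm hi.1 hi.2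
  obtain ⟨i0, a1⟩ := eventually_atTop.1 a1
  have a3 : Tendsto (fun j => qq (Λ (j + 1))) atTop (nhds 0) := by
    refine (Summable.tendsto_atTop_zero (f := fun j => qq (Λ j)) ?_).comp
      (tendsto_add_atTop_nat 1)
    refine summable_of_sum_range_le (c := C) (fun n => qq_nonneg _) fun n => ?_
    refine le_trans ?_ (h3 n)
    rw [Finset.sum_range_succ]
    exact le_add_of_nonneg_right (qq_nonneg _)
  have lev := fun i (hi : i0 ≤ i) => (h1 i).lev (a1 i hi) (a1 (i + 1) (by omega))
  have key : ∀ i, i0 ≤ i → ∃ j, i ≤ j ∧ (ist (Λ (j + 1))).length = l ∧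
      fm (fr l (ist (Λ (j + 1)))) = fm (fr l (ist (Λ i))) + 1 ∧
      ie (Λ (j + 1)) = fm (fr l (ist (Λ i))) ∧ (ik (Λ (j + 1)) = 1 ∨ ik (Λ (j + 1)) = 3) := by
    intro i hi
    by_contra hn
    have b1 : ∀ j, i ≤ j → fm (fr l (ist (Λ j))) = fm (fr l (ist (Λ i))) ∧
        ft (fr l (ist (Λ j))) = ft (fr l (ist (Λ i))) := by
      intro j hj
      induction hj with
      | refl => exact ⟨rfl, rfl⟩
      | @step j hj ih =>
        obtain ⟨c1, -, -, c2 | c2⟩ := lev j (hi.trans hj)
        · exact ⟨c2.1.trans ih.1, c1.trans ih.2⟩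
        · rw [ih.1] at c2
          exact absurd ⟨j, hj, c2⟩ hn
    have b2 := a3.eventually (gt_mem_nhds (show (0 : ℝ) <
      1 / 2 ^ (ft (fr l (ist (Λ i))) + KK g + fm (fr l (ist (Λ i))) + 2) by positivity))
    obtain ⟨j, c1, c2, c3⟩ := (a2.and_eventually (b2.and (eventually_ge_atTop i))).exists
    obtain ⟨-, -, -, c4 | c4⟩ := lev j (hi.trans c3)
    · have := c4.2 c1
      rw [(b1 j c3).1, (b1 j c3).2] at this
      linarith
    · rw [(b1 j c3).1] at c4
      exact hn ⟨j, c3, c4⟩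
  refine ⟨l, i0, fm (fr l (ist (Λ i0))), ?_, ?_⟩
  · have : ∀ e, fm (fr l (ist (Λ i0))) ≤ e → ∃ i, i0 ≤ i ∧ fm (fr l (ist (Λ i))) = e := by
      intro e he
      induction he with
      | refl => exact ⟨i0, le_rfl, rfl⟩
      | step _ ih =>
        obtain ⟨i, b1, b2⟩ := ih
        obtain ⟨j, c1, -, c2, -⟩ := key i b1
        exact ⟨j + 1, by omega, by rw [c2, b2]⟩
    intro e he
    obtain ⟨i, b1, b2⟩ := this e he
    obtain ⟨j, c1, c2, -, c3, c4⟩ := key i b1
    exact ⟨j + 1, by omega, c3.trans b2, c2, c4⟩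
  · intro i hi k2 hlen
    obtain ⟨i, rfl⟩ : ∃ i', i = i' + 1 := ⟨i - 1, by omega⟩
    have ct := (h1 i).child_top k2
    rw [hlen] at ct
    by_contra hn
    have b1 : ∀ j, i + 1 ≤ j → l + 1 ≤ (ist (Λ j)).length ∧
        fo (fr (l + 1) (ist (Λ j))) = ix (Λ (i + 1)) ∧
        fs (fr (l + 1) (ist (Λ j))) = !isd (Λ (i + 1)) := by
      intro j hj
      induction hj with
      | refl => exact ⟨hlen.ge, ct⟩
      | @step j hj ih =>
        have hj' : i + 1 ≤ j := hj
        by_cases c : l + 1 ≤ (ist (Λ (j + 1))).length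
        · obtain ⟨-, c1, c2, -⟩ := (h1 j).lev ih.1 c
          exact ⟨c, c1.trans ih.2.1, c2.trans ih.2.2⟩
        · exfalso
          obtain ⟨d1, d2, d3, d4⟩ := (h1 j).drop (by omega)
          have d5 : (ist (Λ j)).length = l + 1 := by omega
          rw [d5] at d3 d4
          refine hn ⟨j + 1, d1, ?_, d3.trans ih.2.1, d4.trans ih.2.2⟩
          by_contra hf
          have := (h1 (j + 1)).of_fin d1 (by simpa using hf)
          have := a1 (j + 1 + 1) (by omega)
          omega
    obtain ⟨j, c1, c2⟩ := (a2.and_eventually (eventually_ge_atTop (i + 1))).exists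
    have := (b1 j c2).1
    omega

def won (ap : Bool → ℕ → ℕ → Bool) (g l x s : ℕ) : Bool :=
  (LL ap g s).any fun y => eqb (ix y) x && (eqb (ik y) 3 && eqb (ist y).length l)

def live (ap : Bool → ℕ → ℕ → Bool) (g l x s : ℕ) : Bool :=
  (LL ap g s).any fun y => eqb (ix y) x && ((eqb (ik y) 1 && eqb (ist y).length l) ||
    (eqb (ik y) 2 && eqb (ist y).length (l + 1)))

variable {l x s : ℕ}

theorem won_true : won ap g l x s = true ↔
    ∃ y ∈ LL ap g s, ix y = x ∧ ik y = 3 ∧ (ist y).length = l := by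
  simp only [won, List.any_eq_true, Bool.and_eq_true, eqb_true]

theorem live_true : live ap g l x s = true ↔ ∃ y ∈ LL ap g s, ix y = x ∧
    ((ik y = 1 ∧ (ist y).length = l) ∨ (ik y = 2 ∧ (ist y).length = l + 1)) := by
  simp only [live, List.any_eq_true, Bool.and_eq_true, Bool.or_eq_true, eqb_true]

theorem live_succ (h : live ap g l x (s + 1) = true) : live ap g l x s = true ∨ x = s + 1 := by
  obtain ⟨y, hy, h1, h2⟩ := live_true.1 h
  rcases new_cases hy with a | a | a | ⟨z, hz, e1, e2, -, a | a | a⟩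
  · exact Or.inl (live_true.2 ⟨y, a, h1, h2⟩)
  · omega
  · omega
  · exact Or.inl (live_true.2 ⟨z, hz, by omega, by omega⟩)
  · exact Or.inl (live_true.2 ⟨z, hz, by omega, by omega⟩)
  · omega

theorem won_succ (h : won ap g l x (s + 1) = true) : won ap g l x s = true ∨
    (live ap g l x s = true ∧ ∀ S, gd ap (GG ap g s) (s + 1) x S = false) := by
  obtain ⟨y, hy, h1, h2⟩ := won_true.1 h
  rcases new_cases hy with a | a | a | ⟨z, hz, e1, e2, -, a | a | a⟩
  · exact Or.inl (won_true.2 ⟨y, a, h1, h2⟩)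
  · omega
  · omega
  · omega
  · omega
  · refine Or.inr ⟨live_true.2 ⟨z, hz, by omega, by omega⟩, ?_⟩
    rw [← h1, e1]; exact a.2.2.1

theorem won_early (h : ∀ t, s ≤ t → ¬(live ap g l x t = true ∧
    ∀ S, gd ap (GG ap g t) (t + 1) x S = false)) {t : ℕ} (ht : won ap g l x t = true) :
    ∃ r ≤ s, won ap g l x r = true := by
  induction t with
  | zero => exact ⟨0, Nat.zero_le _, ht⟩
  | succ t ih =>
    by_cases c : t + 1 ≤ s
    · exact ⟨t + 1, c, ht⟩
    · rcases won_succ ht with a | a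
      · exact ih a
      · exact absurd a (h t (by omega))

theorem dead (h1 : x ≤ s) (h2 : live ap g l x s = false) {t : ℕ} (ht : s ≤ t) :
    live ap g l x t = false := by
  induction ht with
  | refl => exact h2
  | @step t ht ih =>
    have ht' : s ≤ t := ht
    by_contra c
    rcases live_succ (s := t) (by simpa using c) with a | a
    · rw [ih] at a; exact absurd a (by simp)
    · omega

/-- The reduction procedure. -/
def red (ap : Bool → ℕ → ℕ → Bool) (g l T : ℕ) (S : Bool) (σ : List Bool) (x : ℕ) : Option Bool :=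
  cond (leb x T) (some false)
    (cond (leb x σ.length && (!live ap g l x σ.length || (GG ap g σ.length).any fun e =>
      eqb e.1 x && (eqb e.2.1 S && (leb e.2.2.length σ.length &&
        eqb e.2.2 (σ.take e.2.2.length)))))
      (some ((List.range (σ.length + 1)).any fun r => won ap g l x r)) none)

section pr
variable {α : Type*} [Primcodable α]
  (hap : Primrec fun p : Bool × ℕ × ℕ => ap p.1 p.2.1 p.2.2)
include hap

theorem pr_won {x s : α → ℕ} (h1 : Primrec x) (h2 : Primrec s) :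
    Primrec fun a => won ap g l (x a) (s a) := by
  unfold won
  exact pr_any (pr_LL hap (Primrec.const g) h2) (by fun_prop)

theorem pr_live {x s : α → ℕ} (h1 : Primrec x) (h2 : Primrec s) :
    Primrec fun a => live ap g l (x a) (s a) := by
  unfold live
  exact pr_any (pr_LL hap (Primrec.const g) h2) (by fun_prop)

theorem pr_red (T : ℕ) (S : Bool) :
    Primrec fun p : List Bool × ℕ => red ap g l T S p.1 p.2 := by
  unfold red
  refine pr_cond (by fun_prop) (by fun_prop) (pr_cond (pr_and (by fun_prop) (pr_or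
    (pr_not (pr_live hap (by fun_prop) (by fun_prop)))
    (pr_any (pr_GG hap (Primrec.const g) (by fun_prop)) (by fun_prop))))
    (pr_some (pr_any (by fun_prop) (pr_won hap (by fun_prop) (by fun_prop)))) (by fun_prop))

end pr

theorem Hyp.exists_common (H : Hyp ap g A)
    (hap : Primrec fun p : Bool × ℕ × ℕ => ap p.1 p.2.1 p.2.2) :
    ∃ E : ℕ → Bool, REPred (fun x => E x = true) ∧ ¬Computable E ∧ ∀ S, TLe E (A S) := by
  classical
  obtain ⟨Λ, h1, h2, h3, h4, h5⟩ := H.exists_limit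
  obtain ⟨l, i0, m0, g1, g2⟩ := golden h1 h2 h3
  have smono : StrictMono fun i => tm (Λ i) := strictMono_nat_of_lt_succ fun i => (h1 i).tm_lt
  let E : ℕ → Bool := fun x => decide (tm (Λ i0) < x ∧ ∃ s, won ap g l x s = true)
  have hE : ∀ x, E x = true ↔ tm (Λ i0) < x ∧ ∃ s, won ap g l x s = true := fun x => by simp [E]
  refine ⟨E, ?_, ?_, fun S => ?_⟩
  · have hp : Partrec fun x : ℕ => Nat.rfind fun s =>
        (Part.some (ltb (tm (Λ i0)) x && won ap g l x s) : Part Bool) :=
      Partrec.rfind (Primrec.to_comp (pr_and (by fun_prop)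
        (pr_won hap Primrec.fst Primrec.snd))).partrec
    refine hp.dom_re.of_eq fun x => ?_
    rw [hE, Nat.rfind_dom]
    simp
  · intro hc
    have hc' : Nat.Partrec fun x => (Part.some (cond (E x) 1 0) : Part ℕ) :=
      Partrec.nat_iff.1 (Computable.cond hc (Computable.const 1) (Computable.const 0)).partrec
    obtain ⟨c, hc'⟩ := Nat.Partrec.Code.exists_code.1 hc'
    obtain ⟨j, a1, a2, a3, a4⟩ := g1 (Nat.pair (encode c) m0) (Nat.right_le_pair _ _)
    obtain ⟨j, rfl⟩ : ∃ i', j = i' + 1 := ⟨j - 1, by omega⟩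
    have hx : tm (Λ i0) < ix (Λ (j + 1)) :=
      lt_of_le_of_lt (smono.monotone (Nat.le_of_lt_succ a1))
        ((h1 j).ix_bounds (by unfold Fol; tauto)).1
    have hrl : ∀ x t, rl (ie (Λ (j + 1))) x t = true ↔ Nat.Partrec.Code.evaln t c x = some 0 := by
      intro x t
      simp [rl, a2]
    rcases a4 with a4 | a4
    · have b1 : E (ix (Λ (j + 1))) = false := by
        by_contra hn
        obtain ⟨-, r, hr⟩ := (hE _).1 (by simpa using hn)
        obtain ⟨w, b1, b2, b3, -⟩ := won_true.1 hr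
        obtain ⟨s, ⟨b4, -⟩, b5⟩ := ((h4 (j + 1)).and (eventually_ge_atTop r)).exists
        obtain ⟨q, hq, -⟩ := good_LL ap g r
        have b6 := (hq.ix_gt w b1 (Or.inr (Or.inr b3))).1
        have b7 := tm_le_of_mem b1
        have b8 := U_ix (h1 j) a4
        have b9 := hq.ix_inj b1 (mem_LL_of_le b4 (by omega) b5) (Or.inr (Or.inr b3))
          (Or.inl a4) b2
        rw [b9] at b3; omega
      have b2 : 0 ∈ c.eval (ix (Λ (j + 1))) := by rw [hc']; simp [b1]
      obtain ⟨t, ht⟩ := Nat.Partrec.Code.evaln_complete.1 b2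
      obtain ⟨s, ⟨-, b4⟩, b5⟩ := ((h4 (j + 1)).and (eventually_ge_atTop t)).exists
      have b6 := ((gd_of_not_bad b4).1 a4).2
      rw [(hrl _ _).2 (Option.mem_def.1 (Nat.Partrec.Code.evaln_mono (by omega) ht))] at b6
      exact absurd b6 (by simp)
    · obtain ⟨s, b4, -⟩ := (h4 (j + 1)).exists
      have b1 : E (ix (Λ (j + 1))) = true := (hE _).2 ⟨hx, s, won_true.2 ⟨_, b4, rfl, a4, a3⟩⟩
      obtain ⟨t, ht⟩ := realized b4 (Or.inr a4)
      have b2 := Nat.Partrec.Code.evaln_sound (Option.mem_def.2 ((hrl _ _).1 ht))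
      rw [hc'] at b2
      simp [b1] at b2
  · refine TLe.of_search (red ap g l (tm (Λ i0)) S) (pr_red hap _ S) fun x => ?_
    by_cases hx : x ≤ tm (Λ i0)
    · have e : ∀ k, red ap g l (tm (Λ i0)) S (res (A S) k) x = some false := fun k => by
        unfold red; rw [leb_true.2 hx]; rfl
      refine ⟨⟨0, by simp [e]⟩, fun k b hb => ?_⟩
      rw [e] at hb
      have : E x = false := by
        by_contra hn
        have := ((hE x).1 (by simpa using hn)).1
        omega
      rw [this]; exact (Option.some.inj hb).symm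
    have e1 : ∀ k, (leb x k && (!live ap g l x k || (GG ap g k).any fun e =>
        eqb e.1 x && (eqb e.2.1 S && (leb e.2.2.length k &&
          eqb e.2.2 ((res (A S) k).take e.2.2.length))))) = true ↔ x ≤ k ∧
        (live ap g l x k = false ∨ ∃ n ≤ k, (x, S, res (A S) n) ∈ GG ap g k) := by
      intro k
      simp only [Bool.and_eq_true, leb_true, Bool.or_eq_true, Bool.not_eq_true', List.any_eq_true,
        eqb_true]
      refine and_congr_right fun _ => or_congr_right ⟨?_, ?_⟩
      · rintro ⟨⟨a, b, σ⟩, c1, rfl, rfl, c2, c3⟩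
        rw [take_res _ c2] at c3
        exact ⟨σ.length, c2, by rw [← c3]; exact c1⟩
      · rintro ⟨n, c1, c2⟩
        exact ⟨_, c2, rfl, rfl, by simpa using c1, by simp [take_res _ c1]⟩
    have e2 : ∀ k, red ap g l (tm (Λ i0)) S (res (A S) k) x = if x ≤ k ∧
        (live ap g l x k = false ∨ ∃ n ≤ k, (x, S, res (A S) n) ∈ GG ap g k) then
        some ((List.range (k + 1)).any fun r => won ap g l x r) else none := by
      intro k
      unfold red
      rw [leb_false.2 (not_le.1 hx), length_res, cond_false]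
      split_ifs with c
      · rw [(e1 k).2 c]; rfl
      · rw [Bool.eq_false_iff.2 (mt (e1 k).1 c)]; rfl
    refine ⟨?_, fun k b hb => ?_⟩
    · suffices ∃ k, x ≤ k ∧ (live ap g l x k = false ∨
          ∃ n ≤ k, (x, S, res (A S) n) ∈ GG ap g k) by
        obtain ⟨k, hk⟩ := this
        exact ⟨k, by rw [e2, if_pos hk]; rfl⟩
      by_cases hl : ∃ k, x ≤ k ∧ live ap g l x k = false
      · obtain ⟨k, a, b⟩ := hl
        exact ⟨k, a, Or.inl b⟩
      suffices ∀ᶠ t in atTop, gd ap (GG ap g t) (t + 1) x S = true by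
        obtain ⟨t, n, h⟩ := H.true_of_gd this
        exact ⟨max x (max t n), le_max_left _ _, Or.inr ⟨n, by omega, GG_mono h (by omega)⟩⟩
      obtain ⟨s, ⟨b1, -⟩, b2, b3⟩ := ((h4 x).and ((h5 x).and (eventually_ge_atTop x))).exists
      obtain ⟨y, c1, c2, c3⟩ := (live_true (ap := ap) (g := g) (l := l) (x := x) (s := s)).1
        (by by_contra hn; exact hl ⟨s, b3, by simpa using hn⟩)
      obtain ⟨q, hq, -⟩ := good_LL ap g s
      have c4 := hq.ix_gt y c1 (by unfold Fol; tauto)
      have c5 : x ≤ tm (Λ x) := smono.id_le x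
      obtain ⟨j, rfl⟩ := b2 y c1 (by
        by_contra hn
        have := c4.2 _ b1 (not_le.1 hn)
        omega)
      have c6 : i0 < j := smono.lt_iff_lt.1 (show tm (Λ i0) < tm (Λ j) by omega)
      rw [← c2]
      rcases c3 with c3 | c3
      · exact (h4 j).mono fun t ht => ((gd_of_not_bad ht.2).1 c3.1).1 S
      · by_cases hS : S = isd (Λ j)
        · rw [hS]
          exact (h4 j).mono fun t ht => (gd_of_not_bad ht.2).2 (Or.inl c3.1)
        · obtain ⟨i, d1, d2, d3, d4⟩ := g2 j c6 c3.1 c3.2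
          have : S = isd (Λ i) := by rw [d4]; revert hS; cases S <;> cases isd (Λ j) <;> simp
          rw [this, ← d3]
          exact (h4 i).mono fun t ht => (gd_of_not_bad ht.2).2 (Or.inr ⟨d1, d2⟩)
    · rw [e2] at hb
      split_ifs at hb with c
      rw [← Option.some.inj hb]
      refine Bool.eq_iff_iff.2 ?_
      rw [hE]
      simp only [List.any_eq_true, List.mem_range]
      refine ⟨fun ⟨r, _, hr⟩ => ⟨not_le.1 hx, r, hr⟩, fun ⟨_, t, ht⟩ => ?_⟩
      obtain ⟨r, d1, d2⟩ := won_early (s := k) (fun t ht h => by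
        rcases c.2 with d | ⟨n, -, d⟩
        · rw [dead c.1 d ht] at h; exact absurd h.1 (by simp)
        · have := H.gd_of_true d ht
          rw [h.2 S] at this; exact absurd this (by simp)) ht
      exact ⟨r, by omega, d2⟩

end Pool.Agent.P.MP_471da3_lc
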