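import Pool.Agent.P.MP_471da3_lc.Defs

/-!
Independent clopen pieces of Cantor space, and oracle computations with natural values.
-/

namespace Pool.Agent.P.MP_471da3_lc

open Pool.Agent.Lib.Comp Filter Encodable MeasureTheory

noncomputable def coin : Measure Bool := (PMF.uniformOfFintype Bool).toMeasure

instance : IsProbabilityMeasure coin := by unfold coin; infer_instance

noncomputable def mu : Measure (ℕ → Bool) := Measure.infinitePi fun _ : ℕ => coin

instance : IsProbabilityMeasure mu := by unfold mu; infer_instance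

theorem coin_single (b : Bool) : coin {b} = 2⁻¹ := by
  unfold coin
  rw [PMF.toMeasure_apply_singleton _ _ (measurableSet_singleton b)]
  simp

def col (X : ℕ → Bool) (n i : ℕ) : Bool := X (Nat.pair n i)

theorem measurable_col : Measurable col := by unfold col; fun_prop

theorem map_col : mu.map col = Measure.infinitePi fun _ : ℕ => mu := by
  have h1 := Measure.map_infinitePi_infinitePi_of_inj (P := fun _ : ℕ => coin)
    (f := fun p : ℕ × ℕ => Nat.pair p.1 p.2) (fun p q h => Prod.ext (Nat.pair_eq_pair.1 h).1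
      (Nat.pair_eq_pair.1 h).2)
  have h2 := Measure.infinitePi_map_curry (fun (_ : ℕ) (_ : ℕ) => coin)
  unfold mu
  rw [← h2, ← h1, Measure.map_map (by fun_prop) (by fun_prop)]
  rfl

theorem mu_pi (D : Finset ℕ) (T : ℕ → Set (ℕ → Bool)) (hT : ∀ n, MeasurableSet (T n)) :
    mu {X | ∀ n ∈ D, col X n ∈ T n} = ∏ n ∈ D, mu (T n) := by
  rw [← Measure.infinitePi_pi (fun _ : ℕ => mu) (fun n _ => hT n), ← map_col,
    Measure.map_apply measurable_col (MeasurableSet.pi D.countable_toSet fun n _ => hT n)]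
  rfl

/-- Binary value of a string. -/
def bv (σ : List Bool) : ℕ := σ.foldl (fun r b => 2 * r + cond b 1 0) 0

theorem bv_succ (Y : ℕ → Bool) (L : ℕ) :
    bv (res Y (L + 1)) = 2 * bv (res Y L) + cond (Y L) 1 0 := by
  simp [bv, res_succ]

theorem bv_eq (L : ℕ) : ∀ a < 2 ^ L, ∃ Z : ℕ → Bool, ∀ Y, bv (res Y L) = a ↔ ∀ i < L, Y i = Z i := by
  induction L with
  | zero => intro a ha; exact ⟨fun _ => false, fun Y => by simp [bv, res]; omega⟩
  | succ L ih =>
    intro a ha
    obtain ⟨Z, hZ⟩ := ih (a / 2) (by rw [pow_succ] at ha; omega)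
    refine ⟨Function.update Z L (decide (a % 2 = 1)), fun Y => ?_⟩
    rw [bv_succ, Nat.forall_lt_succ_right, Function.update_self]
    have : (∀ i < L, Y i = Function.update Z L (decide (a % 2 = 1)) i) ↔ ∀ i < L, Y i = Z i :=
      forall₂_congr fun i hi => by rw [Function.update_of_ne hi.ne]
    rw [this, ← hZ]
    cases Y L <;> simp <;> omega

def blk (L j : ℕ) : Set (ℕ → Bool) := {Y | bv (res Y L) < j}

theorem blk_spec {L j : ℕ} (h : j ≤ 2 ^ L) :
    MeasurableSet (blk L j) ∧ mu.real (blk L j) = j / 2 ^ L := by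
  induction j with
  | zero => simp [blk]
  | succ j ih =>
    obtain ⟨h1, h2⟩ := ih (by omega)
    obtain ⟨Z, hZ⟩ := bv_eq L j h
    have e1 : {Y | bv (res Y L) = j} = Set.pi (Finset.range L : Set ℕ) fun i => {Z i} := by
      ext Y; simp [hZ]
    have e2 : blk L (j + 1) = blk L j ∪ {Y | bv (res Y L) = j} := by
      ext Y; simp only [blk, Set.mem_ofPred_eq, Set.mem_union]; omega
    have h3 : MeasurableSet {Y | bv (res Y L) = j} := by
      rw [e1]
      exact MeasurableSet.pi (Finset.range L).countable_toSet fun i _ => measurableSet_singleton _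
    have h4 : mu.real {Y | bv (res Y L) = j} = 1 / 2 ^ L := by
      rw [e1, Measure.real, mu, Measure.infinitePi_pi _ fun i _ => measurableSet_singleton _]
      simp [coin_single]
    rw [e2]
    refine ⟨h1.union h3, ?_⟩
    rw [measureReal_union _ h3, h2, h4]
    · push_cast; ring
    · refine Set.disjoint_left.2 fun Y a b => ?_
      simp only [blk, Set.mem_ofPred_eq] at a b
      omega

theorem avoid_le (D : Finset ℕ) (L j : ℕ → ℕ) (h : ∀ n, j n ≤ 2 ^ L n) :
    mu.real {X | ∀ n ∈ D, col X n ∉ blk (L n) (j n)} ≤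
      Real.exp (-∑ n ∈ D, (j n : ℝ) / 2 ^ L n) := by
  have h1 := mu_pi D (fun n => (blk (L n) (j n))ᶜ) fun n => (blk_spec (h n)).1.compl
  have h2 : mu.real {X | ∀ n ∈ D, col X n ∉ blk (L n) (j n)} =
      ∏ n ∈ D, mu.real (blk (L n) (j n))ᶜ := by
    simp only [Measure.real]
    rw [← ENNReal.toReal_prod, ← h1]; rfl
  rw [h2, ← Finset.sum_neg_distrib, Real.exp_sum]
  refine Finset.prod_le_prod (fun n _ => measureReal_nonneg) fun n _ => ?_
  rw [probReal_compl_eq_one_sub (blk_spec (h n)).1, (blk_spec (h n)).2]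
  have := Real.add_one_le_exp (-((j n : ℝ) / 2 ^ L n))
  linarith

theorem mu_piece (n L j : ℕ) (h : j ≤ 2 ^ L) :
    mu {X | col X n ∈ blk L j} = ENNReal.ofReal (j / 2 ^ L) := by
  have := mu_pi {n} (fun _ => blk L j) fun _ => (blk_spec h).1
  simp only [Finset.mem_singleton, forall_eq, Finset.prod_singleton] at this
  rw [this, ← (blk_spec h).2, ofReal_measureReal]

/-- `e` is an index of a reduction of the function `f` to `D`. -/
def Idx (e : ℕ) (D : ℕ → Bool) (f : ℕ → ℕ) : Prop :=
  ∀ z, (∀ᶠ k in atTop, ∃ s, Un e s (res D k) z = some (f z)) ∧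
    ∀ k s y, Un e s (res D k) z = some y → y = f z

theorem exists_idx {D : ℕ → Bool} {f : ℕ → ℕ} (h : TuringReducible (PFun.lift f) (chi D)) :
    ∃ e, Idx e D f := by
  obtain ⟨F, pF, sF, cF⟩ := use_principle (RecursiveIn.iff_nat.1 h)
  obtain ⟨c, hc⟩ := Nat.Partrec.Code.exists_code.1 pF
  have key : ∀ σ z m, m ∈ c.eval (encode (σ, z)) ↔ m ∈ F σ z := by
    intro σ z m
    rw [hc]
    simp only [encodek, Part.coe_some, Part.bind_some, Part.mem_map_iff]
    exact ⟨fun ⟨a, ha, e⟩ => e ▸ ha, fun h => ⟨m, h, rfl⟩⟩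
  refine ⟨encode c, fun z => ⟨?_, fun k s y hy => ?_⟩⟩
  · filter_upwards [cF z (f z) (by simp [PFun.lift])] with k hk
    obtain ⟨s, hs⟩ := Nat.Partrec.Code.evaln_complete.1 ((key _ _ _).2 hk)
    refine ⟨s, ?_⟩
    unfold Un
    rw [Denumerable.ofNat_encode, Option.mem_def.1 hs]
  · unfold Un at hy
    rw [Denumerable.ofNat_encode] at hy
    have := sF _ _ _ ((key _ _ _).1 (Nat.Partrec.Code.evaln_sound (Option.mem_def.2 hy)))
    simpa [PFun.lift] using this

theorem of_searchN {f : ℕ → ℕ} {D : ℕ → Bool} (G : List Bool → ℕ → Option ℕ)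
    (hG : Primrec (fun p : List Bool × ℕ => G p.1 p.2))
    (h : ∀ z, (∃ k, (G (res D k) z).isSome) ∧ ∀ k b, G (res D k) z = some b → b = f z) :
    TuringReducible (PFun.lift f) (chi D) := by
  have h1 : Nat.RecursiveIn {chi D} (fun n => Part.some
      (Nat.pair n.unpair.1 (encode (res D n.unpair.2)))) :=
    totIn_pair (totIn_primrec (by fun_prop)) (totIn_res D)
  have h2 := totIn_comp (totIn_primrec (O := {chi D}) (f := fun m =>
    cond (G ((decode m.unpair.2 : Option (List Bool)).getD []) m.unpair.1).isSome 0 1)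
    (by fun_prop)) h1
  have h3 := totIn_comp (totIn_primrec (O := {chi D}) (f := fun m =>
    (G ((decode m.unpair.2 : Option (List Bool)).getD []) m.unpair.1).getD 0)
    (by fun_prop)) h1
  have h4 := h3.comp ((totIn_primrec (O := {chi D}) (f := fun n => n) (by fun_prop)).pair h2.rfind)
  refine RecursiveIn.iff_nat.2 (h4.of_eq fun z => ?_)
  obtain ⟨⟨k, hk⟩, hz⟩ := h z
  obtain ⟨n, hn, -⟩ := Nat.rfind_min' (p := fun k => (G (res D k) z).isSome) hk
  have e : (Nat.rfind fun n => (fun m => decide (m = 0)) <$> Part.some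
      (cond (G ((decode (Nat.pair (Nat.pair z n).unpair.1
        (encode (res D (Nat.pair z n).unpair.2))).unpair.2 : Option (List Bool)).getD [])
        (Nat.pair (Nat.pair z n).unpair.1
        (encode (res D (Nat.pair z n).unpair.2))).unpair.1).isSome 0 1 : ℕ)) = Part.some n := by
    rw [← Part.eq_some_iff.2 hn]
    congr 1
    funext m
    simp only [Nat.unpair_pair, encodek, Option.getD_some, Part.map_eq_map, Part.map_some,
      PFun.coe_val]
    cases (G (res D m) z).isSome <;> rfl
  rw [e]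
  have hs := Nat.rfind_spec hn
  simp only [PFun.coe_val, Part.mem_some_iff] at hs
  obtain ⟨b, hb⟩ := Option.isSome_iff_exists.1 hs.symm
  simp [Seq.seq, hb, hz n b hb]

theorem exists_approx {W : ℕ → Bool} (h : REPred fun x => W x = true) :
    ∃ a : ℕ → ℕ → Bool, Primrec (fun p : ℕ × ℕ => a p.1 p.2) ∧
      (∀ s t x, s ≤ t → a s x = true → a t x = true) ∧ ∀ x, ∀ᶠ s in atTop, a s x = W x := by
  have h1 : Nat.Partrec fun x => (Part.assert (W x = true) fun _ => Part.some ()).map
      fun _ => (0 : ℕ) := Partrec.nat_iff.1 (Partrec.map h (Computable.const 0).to₂)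
  obtain ⟨c, hc⟩ := Nat.Partrec.Code.exists_code.1 h1
  have mono : ∀ s t x, s ≤ t → (Nat.Partrec.Code.evaln s c x).isSome = true →
      (Nat.Partrec.Code.evaln t c x).isSome = true := by
    intro s t x hst h
    obtain ⟨y, hy⟩ := Option.isSome_iff_exists.1 h
    rw [Option.mem_def.1 (Nat.Partrec.Code.evaln_mono hst (Option.mem_def.2 hy))]; rfl
  refine ⟨fun s x => (Nat.Partrec.Code.evaln s c x).isSome, by fun_prop, mono, fun x => ?_⟩
  cases hW : W x
  · refine Eventually.of_forall fun s => ?_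
    by_contra hn
    obtain ⟨y, hy⟩ := Option.isSome_iff_exists.1 (Bool.eq_true_of_not_eq_false hn)
    have := Nat.Partrec.Code.evaln_sound (Option.mem_def.2 hy)
    rw [hc] at this
    simp [hW] at this
  · have : 0 ∈ c.eval x := by rw [hc]; simp [hW]
    obtain ⟨s, hs⟩ := Nat.Partrec.Code.evaln_complete.1 this
    filter_upwards [eventually_ge_atTop s] with t ht
    exact mono s t x ht (by rw [Option.mem_def.1 hs]; rfl)

end Pool.Agent.P.MP_471da3_lc
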