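import Pool.Agent.P.MP_471da3_lc.Golden
import Pool.Agent.P.MP_471da3_lc.Meas

/-!
The functional on Cantor space and the existence of a correct guess.
-/

namespace Pool.Agent.P.MP_471da3_lc

open Pool.Agent.Lib.Comp Filter Encodable MeasureTheory

variable {ap : Bool → ℕ → ℕ → Bool}

def jn (ap : Bool → ℕ → ℕ → Bool) (n : ℕ) : ℕ := jj ap n.unpair.1 n.unpair.2
def Ln (n : ℕ) : ℕ := n.unpair.2 + n.unpair.1 + 2

theorem pw_le_one (g t : ℕ) : pw ap g t ≤ 1 := by
  cases hf : (LL ap g t).find? fun y => eqb (tm y) t with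
  | none => simp [pw, jj, hf, v_zero]
  | some z =>
    have h1 := List.mem_of_find?_eq_some hf
    have h2 : tm z = t := by simpa using List.find?_some hf
    rw [← h2, pw_eq h1]
    exact wt_le_of_mem h1

theorem jn_le (n : ℕ) : jn ap n ≤ 2 ^ Ln n := by
  have h := pw_le_one (ap := ap) n.unpair.1 n.unpair.2
  unfold pw v at h
  rw [div_le_one (by positivity)] at h
  have h1 : jn ap n ≤ 2 ^ n.unpair.2 := by exact_mod_cast h
  exact h1.trans (Nat.pow_le_pow_right (by norm_num) (by unfold Ln; omega))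

theorem jn_div (g t : ℕ) :
    (jn ap (Nat.pair g t) : ℝ) / 2 ^ Ln (Nat.pair g t) = pw ap g t / 2 ^ (g + 2) := by
  simp only [jn, Ln, Nat.unpair_pair, pw, v]
  rw [add_assoc, pow_add, div_div]

def SS (ap : Bool → ℕ → ℕ → Bool) (n : ℕ) : Set (ℕ → Bool) := {X | col X n ∈ blk (Ln n) (jn ap n)}

def Perm (ap : Bool → ℕ → ℕ → Bool) (n : ℕ) : Prop :=
  ∀ s, n.unpair.2 ≤ s → alive ap n.unpair.1 n.unpair.2 s = true

def TT (ap : Bool → ℕ → ℕ → Bool) : Set (ℕ → Bool) := {X | ∀ n, Perm ap n → X ∉ SS ap n}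

open Classical in
theorem sum_list_le (L : List Item) {φ : ℕ → ℝ} (h : ∀ n, 0 ≤ φ n) (M : ℕ) :
    ∑ t ∈ Finset.range M, (if ∃ y ∈ L, tm y = t then φ t else 0) ≤
      (L.map fun y => φ (tm y)).sum := by
  induction L with
  | nil => simp
  | cons a L ih =>
    have h1 : ∑ t ∈ Finset.range M, (if tm a = t then φ t else 0) ≤ φ (tm a) := by
      rw [Finset.sum_ite_eq]; split_ifs
      · exact le_rfl
      · exact h _
    rw [List.map_cons, List.sum_cons]
    refine le_trans ?_ (add_le_add h1 ih)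
    rw [← Finset.sum_add_distrib]
    refine Finset.sum_le_sum fun t _ => ?_
    have := h t
    simp only [List.mem_cons, exists_eq_or_imp]
    by_cases c1 : tm a = t <;> by_cases c2 : ∃ y ∈ L, tm y = t <;> simp [c1, c2, this]

open Classical in
theorem perm_sum (g M : ℕ) :
    ∑ t ∈ Finset.range M, (if Perm ap (Nat.pair g t) then pw ap g t else 0) ≤ 1 := by
  obtain ⟨p, hp, -⟩ := good_LL ap g M
  have h1 := sum_list_le (LL ap g M) (φ := pw ap g) (fun n => v_nonneg _ _) M
  rw [List.map_congr_left fun y hy => pw_eq hy, hp.sum_wt] at h1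
  refine le_trans (Finset.sum_le_sum fun t ht => ?_) (h1.trans hp.vV_le)
  split_ifs with c1 c2 c2
  · exact le_rfl
  · have := c1 M (by simpa using (Finset.mem_range.1 ht).le)
    simp only [Nat.unpair_pair] at this
    exact absurd (alive_true.1 this) c2
  · exact v_nonneg _ _
  · exact le_rfl

theorem mu_TT (ap : Bool → ℕ → ℕ → Bool) : mu (TT ap) ≠ 0 := by
  classical
  have h1 : (TT ap)ᶜ ⊆ ⋃ g, ⋃ t, {X | Perm ap (Nat.pair g t) ∧ X ∈ SS ap (Nat.pair g t)} := by
    intro X hX
    simp only [TT, Set.mem_compl_iff, Set.mem_ofPred_eq, not_forall, not_not] at hX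
    obtain ⟨n, a, b⟩ := hX
    simp only [Set.mem_iUnion, Set.mem_ofPred_eq]
    exact ⟨n.unpair.1, n.unpair.2, by simpa using a, by simpa using b⟩
  have h2 : ∀ g, mu (⋃ t, {X | Perm ap (Nat.pair g t) ∧ X ∈ SS ap (Nat.pair g t)}) ≤
      ENNReal.ofReal (1 / 2 / 2 / 2 ^ g) := by
    intro g
    refine (measure_iUnion_le _).trans (ENNReal.summable.tsum_le_of_sum_range_le fun M => ?_)
    have h3 : ∀ t, mu {X | Perm ap (Nat.pair g t) ∧ X ∈ SS ap (Nat.pair g t)} =
        ENNReal.ofReal ((if Perm ap (Nat.pair g t) then pw ap g t else 0) / 2 ^ (g + 2)) := by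
      intro t
      split_ifs with c
      · simp only [c, true_and]
        rw [← jn_div]
        exact mu_piece _ _ _ (jn_le _)
      · simp [c]
    simp only [h3]
    rw [← ENNReal.ofReal_sum_of_nonneg, ← Finset.sum_div]
    · refine ENNReal.ofReal_le_ofReal ?_
      rw [div_le_iff₀ (by positivity)]
      refine (perm_sum g M).trans (le_of_eq ?_)
      rw [pow_add]; field_simp
    · intro t _
      refine div_nonneg ?_ (by positivity)
      split_ifs
      · exact v_nonneg _ _
      · exact le_rfl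
  have h4 : mu (TT ap)ᶜ ≤ ENNReal.ofReal (1 / 2) := by
    refine (measure_mono h1).trans ((measure_iUnion_le _).trans
      ((ENNReal.tsum_le_tsum h2).trans (le_of_eq ?_)))
    rw [← ENNReal.ofReal_tsum_of_nonneg (fun n => by positivity) (summable_geometric_two' _),
      tsum_geometric_two']
  intro h0
  have h5 := measure_union_le (μ := mu) (TT ap) (TT ap)ᶜ
  rw [Set.union_compl_self, measure_univ, h0, zero_add] at h5
  have := h5.trans h4
  rw [← ENNReal.ofReal_one, ENNReal.ofReal_le_ofReal_iff (by norm_num)] at this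
  norm_num at this

open Classical in
/-- The function computed from `X`: the stage at which the piece is cancelled. -/
noncomputable def gX (ap : Bool → ℕ → ℕ → Bool) (X : ℕ → Bool) (n : ℕ) : ℕ :=
  if h : X ∈ SS ap n ∧ ∃ s, n.unpair.2 ≤ s ∧ alive ap n.unpair.1 n.unpair.2 s = false then
    Nat.find h.2 else 0

def gp (ap : Bool → ℕ → ℕ → Bool) (σ : List Bool) (n : ℕ) : Option ℕ :=
  cond ((List.range (Ln n)).all fun i => ltb (Nat.pair n i) σ.length)
    (cond (ltb (bv ((List.range (Ln n)).map fun i => σ.getD (Nat.pair n i) false)) (jn ap n))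
      ((List.range σ.length).find? fun s =>
        leb n.unpair.2 s && !alive ap n.unpair.1 n.unpair.2 s) (some 0)) none

theorem pr_gp (hap : Primrec fun p : Bool × ℕ × ℕ => ap p.1 p.2.1 p.2.2) :
    Primrec fun p : List Bool × ℕ => gp ap p.1 p.2 := by
  unfold gp Ln bv jn jj alive
  refine pr_cond (by fun_prop) (pr_cond (pr_ltb (by fun_prop) (pr_optElim (pr_find?
    (pr_LL hap (by fun_prop) (by fun_prop)) (by fun_prop)) (by fun_prop) (by fun_prop)))
    (pr_find? (by fun_prop) (pr_and (by fun_prop) (pr_not (pr_any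
      (pr_LL hap (by fun_prop) (by fun_prop)) (by fun_prop))))) (by fun_prop)) (by fun_prop)

theorem gX_red (hap : Primrec fun p : Bool × ℕ × ℕ => ap p.1 p.2.1 p.2.2) {X : ℕ → Bool}
    (hX : X ∈ TT ap) : TuringReducible (PFun.lift (gX ap X)) (chi X) := by
  classical
  refine of_searchN (gp ap) (pr_gp hap) fun n => ?_
  have e1 : ∀ k, gp ap (res X k) n = if ∀ i < Ln n, Nat.pair n i < k then
      (if X ∈ SS ap n then (List.range k).find? fun s =>
        leb n.unpair.2 s && !alive ap n.unpair.1 n.unpair.2 s else some 0) else none := by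
    intro k
    unfold gp
    rw [length_res]
    by_cases c : ∀ i < Ln n, Nat.pair n i < k
    · have a1 : ((List.range (Ln n)).all fun i => ltb (Nat.pair n i) k) = true := by simpa using c
      have a2 : ((List.range (Ln n)).map fun i => (res X k).getD (Nat.pair n i) false) =
          res (col X n) (Ln n) :=
        List.map_congr_left fun i hi => getD_res X (c i (List.mem_range.1 hi)) false
      rw [a1, a2, if_pos c, cond_true]
      split_ifs with d
      · rw [ltb_true.2 d]; rfl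
      · rw [ltb_false.2 (not_lt.1 d)]; rfl
    · have a1 : ((List.range (Ln n)).all fun i => ltb (Nat.pair n i) k) = false := by
        by_contra hn
        exact c (by simpa using hn)
      rw [a1, if_neg c]; rfl
  have e2 : ∀ᶠ k in atTop, ∀ i < Ln n, Nat.pair n i < k := by
    have : ∀ᶠ k in atTop, ∀ i ∈ Finset.range (Ln n), Nat.pair n i < k :=
      (Finset.eventually_all _).2 fun i _ => eventually_gt_atTop _
    exact this.mono fun k hk i hi => hk i (Finset.mem_range.2 hi)
  refine ⟨?_, fun k b hb => ?_⟩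
  · by_cases d : X ∈ SS ap n
    · have : ¬Perm ap n := fun h => hX n h d
      simp only [Perm, not_forall, Bool.not_eq_true] at this
      obtain ⟨s, a, b⟩ := this
      obtain ⟨k, c1, c2⟩ := (e2.and (eventually_gt_atTop s)).exists
      refine ⟨k, ?_⟩
      rw [e1, if_pos c1, if_pos d, List.find?_isSome]
      exact ⟨s, List.mem_range.2 c2, by simp [a, b]⟩
    · obtain ⟨k, c1⟩ := e2.exists
      exact ⟨k, by rw [e1, if_pos c1, if_neg d]; rfl⟩
  · rw [e1] at hb
    split_ifs at hb with c d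
    · obtain ⟨a1, -, a2⟩ := List.find?_range_eq_some.1 hb
      have a3 : n.unpair.2 ≤ b ∧ alive ap n.unpair.1 n.unpair.2 b = false := by simpa using a1
      rw [gX, dif_pos ⟨d, b, a3⟩, eq_comm, Nat.find_eq_iff]
      refine ⟨a3, fun m hm h => ?_⟩
      have := a2 m hm
      rw [leb_true.2 h.1, h.2] at this
      simp at this
    · rw [gX, dif_neg fun h => d h.1]
      exact (Option.some.inj hb).symm

/-- Almost every sequence computes only functions dominated by `D`-computable ones. -/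
def Dom (D : ℕ → Bool) : Prop :=
  ∀ᵐ X ∂mu, ∀ f : ℕ → ℕ, TuringReducible (PFun.lift f) (chi X) →
    ∃ h : ℕ → ℕ, TuringReducible (PFun.lift h) (chi D) ∧ ∀ᶠ n in atTop, f n ≤ h n

theorem exists_guess (hap : Primrec fun p : Bool × ℕ × ℕ => ap p.1 p.2.1 p.2.2) {D : ℕ → Bool}
    (hD : Dom D) : ∃ e N h, Idx e D h ∧
      0 < mu.real {X | X ∈ TT ap ∧ ∀ n, N ≤ n → gX ap X n ≤ h n} := by
  by_contra hn
  push Not at hn
  refine mu_TT ap (measure_mono_null (t := {X | ¬∀ f : ℕ → ℕ,
    TuringReducible (PFun.lift f) (chi X) → ∃ h : ℕ → ℕ, TuringReducible (PFun.lift h) (chi D) ∧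
      ∀ᶠ n in atTop, f n ≤ h n} ∪ ⋃ e, ⋃ N, {X | ∃ h, Idx e D h ∧ X ∈ TT ap ∧
        ∀ n, N ≤ n → gX ap X n ≤ h n}) (fun X hX => ?_) (measure_union_null hD ?_))
  · by_contra hc
    simp only [Set.mem_union, Set.mem_ofPred_eq, not_or, not_not, Set.mem_iUnion] at hc
    obtain ⟨h, a, b⟩ := hc.1 _ (gX_red hap hX)
    obtain ⟨e, he⟩ := exists_idx a
    obtain ⟨N, hN⟩ := eventually_atTop.1 b
    exact hc.2 ⟨e, N, h, he, hX, hN⟩
  · refine measure_iUnion_null fun e => measure_iUnion_null fun N => ?_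
    by_cases c : ∃ h, Idx e D h
    · obtain ⟨h, hh⟩ := c
      have h0 := le_antisymm (hn e N h hh) measureReal_nonneg
      rw [measureReal_eq_zero_iff] at h0
      refine measure_mono_null ?_ h0
      rintro X ⟨h', a, b⟩
      obtain rfl : h' = h := funext fun z => by
        obtain ⟨k, s, hs⟩ := (a z).1.exists
        exact (hh z).2 k s _ hs
      exact b
    · convert measure_empty (μ := mu)
      ext X
      simp only [Set.mem_ofPred_eq, Set.mem_empty_iff_false, iff_false]
      exact fun ⟨h, a, _⟩ => c ⟨h, a⟩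

theorem psi_bound {A : Bool → ℕ → Bool} {g N : ℕ} {S : Bool} {h : ℕ → ℕ}
    (h1 : Idx (eS g S) (A S) h) (h2 : N ≤ g)
    (h3 : Real.exp (-g) ≤ mu.real {X | X ∈ TT ap ∧ ∀ n, N ≤ n → gX ap X n ≤ h n}) (M : ℕ) :
    ∑ n ∈ Finset.range M, psi ap g A S n ≤ g * 2 ^ (g + 2) := by
  classical
  let D := (Finset.range M).filter fun t => ∃ k, Dsc ap g S (res (A S) k) t
  have inj : Function.Injective (Nat.pair g) := fun a b h => (Nat.pair_eq_pair.1 h).2
  have a1 := avoid_le (D.map ⟨Nat.pair g, inj⟩) Ln (jn ap) jn_le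
  have a2 : {X | X ∈ TT ap ∧ ∀ n, N ≤ n → gX ap X n ≤ h n} ⊆
      {X | ∀ n ∈ D.map ⟨Nat.pair g, inj⟩, col X n ∉ blk (Ln n) (jn ap n)} := by
    rintro X ⟨b1, b2⟩ n hn hX
    obtain ⟨t, ht, rfl⟩ := Finset.mem_map.1 hn
    obtain ⟨k, s, c1, c2⟩ := (Finset.mem_filter.1 ht).2
    have c3 : X ∈ SS ap (Nat.pair g t) := hX
    have c4 : ¬Perm ap (Nat.pair g t) := fun h => b1 _ h c3
    have c5 : ∃ s, (Nat.pair g t).unpair.2 ≤ s ∧
        alive ap (Nat.pair g t).unpair.1 (Nat.pair g t).unpair.2 s = false := by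
      simpa [Perm] using c4
    have c6 := b2 (Nat.pair g t) (h2.trans (Nat.left_le_pair _ _))
    rw [gX, dif_pos ⟨c3, c5⟩] at c6
    obtain ⟨r, c6, c7⟩ : ∃ r, r ≤ h (Nat.pair g t) ∧ t ≤ r ∧ alive ap g t r = false :=
      ⟨_, c6, by simpa only [Nat.unpair_pair] using Nat.find_spec c5⟩
    have c8 : h (Nat.pair g t) < s := by
      unfold dsc at c2
      cases hu : Un (eS g S) s (res (A S) k) (Nat.pair g t) with
      | none => rw [hu] at c2; simp at c2
      | some y =>
        rw [hu] at c2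
        rw [← (h1 _).2 k s y hu]
        simpa using c2
    obtain ⟨y, d1, d2⟩ := alive_true.1 c1
    have := alive_true.2 ⟨y, mem_LL_of_le d1 (t := r) (by omega) (by omega), d2⟩
    rw [c7.2] at this
    exact absurd this (by simp)
  have a3 := Real.exp_le_exp.1 (h3.trans ((measureReal_mono a2).trans a1))
  rw [Finset.sum_map, neg_le_neg_iff] at a3
  simp only [Function.Embedding.coeFn_mk, jn_div] at a3
  rw [← Finset.sum_div, div_le_iff₀ (by positivity), Finset.sum_filter] at a3
  refine le_trans (le_of_eq (Finset.sum_congr rfl fun n _ => ?_)) a3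
  unfold psi
  congr

theorem no_pair {W : Bool → ℕ → Bool} (h1 : ∀ S, REPred fun x => W S x = true)
    (h2 : ∀ S, Dom (W S)) :
    ∃ E : ℕ → Bool, REPred (fun x => E x = true) ∧ ¬Computable E ∧ ∀ S, TLe E (W S) := by
  choose a a1 a2 a3 using fun S => exists_approx (h1 S)
  have hap : Primrec fun p : Bool × ℕ × ℕ => a p.1 p.2.1 p.2.2 := by
    refine (pr_cond Primrec.fst ((a1 true).comp Primrec.snd) ((a1 false).comp Primrec.snd)).of_eq
      fun p => ?_
    cases p.1 <;> rfl
  choose e N h b1 b2 using fun S => exists_guess hap (h2 S)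
  have c1 : ∀ S, ∀ᶠ M : ℕ in atTop, N S ≤ M ∧ Real.exp (-M) ≤
      mu.real {X | X ∈ TT a ∧ ∀ n, N S ≤ n → gX a X n ≤ h S n} := by
    intro S
    refine (eventually_ge_atTop _).and ?_
    have := (Real.tendsto_exp_neg_atTop_nhds_zero.comp tendsto_natCast_atTop_atTop).eventually
      (ge_mem_nhds (b2 S))
    exact this
  obtain ⟨M, c2, c3⟩ := ((c1 false).and (c1 true)).exists
  have c4 : ∀ S, N S ≤ M ∧ Real.exp (-M) ≤
      mu.real {X | X ∈ TT a ∧ ∀ n, N S ≤ n → gX a X n ≤ h S n} := fun S => by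
    cases S; exacts [c2, c3]
  have d1 : ∀ S, eS (Nat.pair (Nat.pair (e false) (e true)) M) S = e S := fun S => by
    cases S <;> simp [eS]
  have d2 : M ≤ Nat.pair (Nat.pair (e false) (e true)) M := Nat.right_le_pair _ _
  refine Hyp.exists_common (g := Nat.pair (Nat.pair (e false) (e true)) M)
    ⟨a2, a3, fun S n => ?_, fun S => psi_bound (N := N S) (h := h S) ?_ ((c4 S).1.trans d2)
      (le_trans ?_ (c4 S).2)⟩ hap
  · rw [d1]
    exact ((b1 S _).1).mono fun k ⟨s, hs⟩ => ⟨s, _, hs⟩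
  · rw [d1]; exact b1 S
  · exact Real.exp_le_exp.2 (neg_le_neg (by exact_mod_cast d2))

end Pool.Agent.P.MP_471da3_lc
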