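import Pool.Agent.P.MP_471da3_lc.Dyn

/-!
Every position of the list stabilises.
-/

namespace Pool.Agent.P.MP_471da3_lc

open Pool.Agent.Lib.Comp Filter

variable {g : ℕ} {ap : Bool → ℕ → ℕ → Bool} {A : Bool → ℕ → Bool}

open Classical in
/-- Weight of a piece that is described by a true initial segment while present. -/
noncomputable def psi (ap : Bool → ℕ → ℕ → Bool) (g : ℕ) (A : Bool → ℕ → Bool) (S : Bool)
    (n : ℕ) : ℝ := if ∃ k, Dsc ap g S (res (A S) k) n then pw ap g n else 0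

/-- The guess `g` is correct. -/
structure Hyp (ap : Bool → ℕ → ℕ → Bool) (g : ℕ) (A : Bool → ℕ → Bool) : Prop where
  mono : Mono ap
  lim : ∀ S x, ∀ᶠ s in atTop, ap S s x = A S x
  tot : ∀ S n, ∀ᶠ k in atTop, ∃ s y, Un (eS g S) s (res (A S) k) (Nat.pair g n) = some y
  bound : ∀ S M, ∑ n ∈ Finset.range M, psi ap g A S n ≤ g * 2 ^ (g + 2)

theorem psi_nonneg (S : Bool) (n : ℕ) : 0 ≤ psi ap g A S n := by
  unfold psi; split_ifs
  · exact v_nonneg _ _
  · exact le_rfl

theorem phi_le_psi (S : Bool) (k n : ℕ) : phi ap g S (res (A S) k) n ≤ psi ap g A S n := by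
  unfold phi
  split_ifs with h
  · rw [psi, if_pos ⟨k, h⟩]
  · exact psi_nonneg S n

theorem Hyp.res_eq (H : Hyp ap g A) (S : Bool) (k : ℕ) :
    ∀ᶠ s in atTop, res (ap S s) k = res (A S) k := by
  have : ∀ᶠ s in atTop, ∀ x ∈ Finset.range k, ap S s x = A S x :=
    (Finset.eventually_all _).2 fun x _ => H.lim S x
  filter_upwards [this] with s hs
  exact res_congr fun x hx => hs x (Finset.mem_range.2 hx)

theorem Hyp.val_of_true (H : Hyp ap g A) {s t x k : ℕ} {S : Bool}
    (h : (x, S, res (A S) k) ∈ GG ap g s) (hst : s ≤ t) : Val ap S t (res (A S) k) := by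
  obtain ⟨a, h1, -, h2⟩ := entry_spec h
  obtain ⟨c, h3, h4⟩ := ((H.res_eq S k).and (eventually_ge_atTop t)).exists
  refine h2.between H.mono (c := c) ?_ (h1.trans hst) h4
  simp [Val, h3]

theorem Hyp.gd_of_true (H : Hyp ap g A) {s t x k : ℕ} {S : Bool}
    (h : (x, S, res (A S) k) ∈ GG ap g s) (hst : s ≤ t) :
    gd ap (GG ap g t) (t + 1) x S = true :=
  gd_true.2 ⟨_, GG_mono h hst, H.val_of_true h (by omega)⟩

theorem Hyp.true_of_gd (H : Hyp ap g A) {x : ℕ} {S : Bool}
    (h : ∀ᶠ t in atTop, gd ap (GG ap g t) (t + 1) x S = true) :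
    ∃ t k, (x, S, res (A S) k) ∈ GG ap g t := by
  obtain ⟨s0, h⟩ := eventually_atTop.1 h
  have h1 : ∀ t, s0 ≤ t → ∀ σ, (x, S, σ) ∈ GG ap g t → (x, S, σ) ∈ GG ap g s0 := by
    intro t ht
    induction ht with
    | refl => exact fun _ h => h
    | @step t ht ih =>
      intro σ hσ
      rcases mem_GG_succ hσ with a | ⟨L1, it, L2, p, S', σ', -, -, -, -, h5, -, -, h8, -⟩
      · exact ih σ a
      · simp only [Prod.mk.injEq] at h5
        obtain ⟨rfl, rfl, rfl⟩ := h5
        rw [h t ht] at h8; exact absurd h8 (by simp)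
  have h2 : ∀ᶠ t in atTop, ∀ e ∈ (GG ap g s0).toFinset,
      res (ap S t) e.2.2.length = res (A S) e.2.2.length :=
    (Finset.eventually_all _).2 fun e _ => H.res_eq S _
  obtain ⟨t, h3, h4⟩ :=
    (((tendsto_add_atTop_nat 1).eventually h2).and (eventually_ge_atTop s0)).exists
  obtain ⟨σ, h5, h6⟩ := gd_true.1 (h t h4)
  have h7 := h1 t h4 σ h5
  refine ⟨s0, σ.length, ?_⟩
  have := h3 _ (List.mem_toFinset.2 h7)
  rw [← this, ← h6]; exact h7

/-- The list is a final initial part. -/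
def Stab (ap : Bool → ℕ → ℕ → Bool) (g : ℕ) (L : List Item) : Prop :=
  ∀ᶠ s in atTop, (∃ R, LL ap g s = L ++ R) ∧ ∀ y ∈ L, bad ap (GG ap g s) (s + 1) y = false

theorem gd_of_not_bad {G : List Entry} {s : ℕ} {y : Item} (h : bad ap G s y = false) :
    (ik y = 1 → (∀ S, gd ap G s (ix y) S = true) ∧ rl (ie y) (ix y) s = false) ∧
      (ik y = 2 ∨ (ik y = 4 ∧ ifn y = false) → gd ap G s (ix y) (isd y) = true) := by
  unfold bad at h
  refine ⟨fun h1 => ?_, fun h1 => ?_⟩
  · have e1 : eqb (ik y) 1 = true := by simp [h1]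
    rw [e1] at h
    simp only [cond_true, Bool.or_eq_false_iff, Bool.not_eq_false', Bool.and_eq_true] at h
    exact ⟨fun S => by cases S; exacts [h.1.1, h.1.2], h.2⟩
  · have e1 : eqb (ik y) 1 = false := by simp; omega
    have e2 : (eqb (ik y) 2 || eqb (ik y) 4 && !ifn y) = true := by simpa using h1
    rw [e1, e2] at h
    simpa using h

theorem Hyp.junk_le (H : Hyp ap g A) {L : List Item} {p : Item} (hL : Stab ap g L)
    (hg : Good g L p) : JJ L ≤ 2 * (g * 2 ^ (g + 2)) := by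
  have := hg.junk_le (ψ := fun n => psi ap g A false n + psi ap g A true n)
    (fun n => add_nonneg (psi_nonneg _ _) (psi_nonneg _ _)) ?_
  · rw [Finset.sum_add_distrib] at this
    have h1 := H.bound false (tm p)
    have h2 := H.bound true (tm p)
    linarith
  intro y hy h2
  obtain ⟨t, k, h3⟩ := H.true_of_gd (x := ix y) (S := isd y)
    (hL.mono fun s hs => (gd_of_not_bad (hs.2 y hy)).2 (Or.inl h2))
  obtain ⟨s, ⟨⟨R, h4⟩, -⟩, h5⟩ := (hL.and (eventually_ge_atTop t)).exists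
  have h6 := ((cover H.mono s y (by simp [h4, hy]) _ _ (GG_mono h3 h5)
    (H.val_of_true h3 h5)).2 h2).1 rfl
  refine h6.trans (Finset.sum_le_sum fun n _ => (phi_le_psi _ _ _).trans ?_)
  have a := psi_nonneg (ap := ap) (g := g) (A := A) false n
  have b := psi_nonneg (ap := ap) (g := g) (A := A) true n
  cases isd y <;> linarith

theorem kk_big (g : ℕ) : 2 * ((g : ℝ) * 2 ^ (g + 2)) < (kk g : ℝ) / 4 := by
  have h1 : (g : ℝ) < 2 ^ g := by exact_mod_cast Nat.lt_two_pow_self
  have h2 : (kk g : ℝ) = 64 * (2 ^ g * 2 ^ g) := by simp only [kk]; push_cast; ring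
  have h3 : (0 : ℝ) < 2 ^ g := by positivity
  rw [h2, pow_add]
  nlinarith

theorem Hyp.ne_nil (H : Hyp ap g A) {L : List Item} {p : Item} (hL : Stab ap g L)
    (hg : Good g L p) : ist p ≠ [] := fun e => by
  have := H.junk_le hL hg
  have := hg.junk e
  have := kk_big g
  linarith

theorem Good.last_eq {L : List Item} {p q : Item} (h1 : Good g L p) (h2 : Good g L q) : p = q :=
  h1.getD.symm.trans h2.getD

theorem next_cases {L R : List Item} {y : Item} {s : ℕ} (h : LL ap g s = L ++ y :: R)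
    (hL : ∀ z ∈ L, bad ap (GG ap g s) (s + 1) z = false) :
    (bad ap (GG ap g s) (s + 1) y = false ∧ ∃ R', LL ap g (s + 1) = L ++ y :: R') ∨
    (bad ap (GG ap g s) (s + 1) y = true ∧
      LL ap g (s + 1) = L ++ [act ap g (GG ap g s) (s + 1) y] ∧
      GG ap g (s + 1) = GG ap g s ++ newd ap g (GG ap g s) (s + 1) L y) := by
  rcases tr ap g s with ⟨p, h1, h2, h3, h4, h5⟩ |
    ⟨L1, it, L2, p, h1, h2, h3, h4, h5, h6, h7, h8⟩
  · left
    exact ⟨h3 y (by simp [h]), R ++ app g (s + 1) p, by simp [h4, h]⟩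
  rw [h] at h1
  rcases List.append_eq_append_iff.1 h1 with ⟨a, e1, e2⟩ | ⟨a, e1, e2⟩
  · cases a with
    | nil =>
      simp only [List.nil_append, List.cons.injEq, List.append_nil] at e1 e2
      obtain ⟨rfl, -⟩ := e2
      subst e1
      exact Or.inr ⟨h6, h7, h8⟩
    | cons b a =>
      simp only [List.cons_append, List.cons.injEq] at e2
      obtain ⟨rfl, -⟩ := e2
      left
      exact ⟨h5 y (by simp [e1]), _, by rw [h7, e1, List.append_assoc]; rfl⟩
  · cases a with
    | nil =>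
      simp only [List.nil_append, List.cons.injEq, List.append_nil] at e1 e2
      obtain ⟨rfl, -⟩ := e2
      subst e1
      exact Or.inr ⟨h6, h7, h8⟩
    | cons b a =>
      simp only [List.cons_append, List.cons.injEq] at e2
      obtain ⟨rfl, -⟩ := e2
      rw [hL it (by simp [e1])] at h6
      exact absurd h6 (by simp)

theorem nx_of_at {L R : List Item} {p y : Item} {s : ℕ} (h : LL ap g s = L ++ y :: R)
    (hg : Good g L p) : Nx g p y := by
  obtain ⟨q, hq, -⟩ := good_LL ap g s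
  rcases (hq.init _ _ _ h).inv with ⟨rfl, -⟩ | ⟨q, h1, h2⟩
  · exact absurd hg.mem (by simp)
  · rwa [hg.last_eq h1]

theorem Nx.qq_pos {p y : Item} (h : Nx g p y) (h1 : ik y = 2) : 0 < qq y := by
  cases h with
  | R s f rest h3 h4 h5 => simp [mkR] at h1
  | W s x f rest h3 h4 h5 h6 => simp at h1
  | U t f rest h3 h4 h5 h6 => simp [mkU] at h1
  | H t x sd Q f rest h3 h4 h5 h6 h7 h8 =>
    have : 0 < Q := lt_of_lt_of_le (by positivity) h8
    simp only [qq, mkH, iQ_mk, tm_mk, v]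
    positivity

theorem Hyp.const (H : Hyp ap g A) {L : List Item} {p : Item} (hL : Stab ap g L)
    (hg : Good g L p) : ∃ y, ∀ᶠ t in atTop, ∃ R, LL ap g t = L ++ y :: R := by
  obtain ⟨s0, h0⟩ := eventually_atTop.1 hL
  by_contra hc
  have chg : ∀ s y, s0 ≤ s → (∃ R, LL ap g s = L ++ y :: R) → ∃ t, s ≤ t ∧
      (∃ R, LL ap g t = L ++ y :: R) ∧ bad ap (GG ap g t) (t + 1) y = true ∧
      LL ap g (t + 1) = L ++ [act ap g (GG ap g t) (t + 1) y] ∧
      act ap g (GG ap g t) (t + 1) y ≠ y := by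
    intro s y hs h
    by_contra hn
    refine hc ⟨y, eventually_atTop.2 ⟨s, fun t ht => ?_⟩⟩
    induction ht with
    | refl => exact h
    | @step t ht ih =>
      obtain ⟨R, hR⟩ := ih
      rcases next_cases hR (h0 t (hs.trans ht)).2 with ⟨-, a⟩ | ⟨a1, a2, -⟩
      · exact a
      · by_cases e : act ap g (GG ap g t) (t + 1) y = y
        · exact ⟨[], by rw [a2, e]⟩
        · exact absurd ⟨t, ht, ⟨R, hR⟩, a1, a2, e⟩ hn
  have k3 : ∀ s y, s0 ≤ s → (∃ R, LL ap g s = L ++ y :: R) → ik y = 1 ∨ ik y = 2 := by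
    intro s y hs h
    obtain ⟨t, -, -, a1, -, a2⟩ := chg s y hs h
    rcases act_cases (g := g) L a1 with a | a | a | ⟨S, -, a, -⟩
    · exact Or.inl a.1
    · exact Or.inr a.1
    · exact Or.inr a.1
    · exact absurd a a2
  have k2 : ∀ n s y, s0 ≤ s → (∃ R, LL ap g s = L ++ y :: R) → ik y = 2 →
      qq y ≤ 1 / 2 ^ n := by
    intro n
    induction n with
    | zero =>
      rintro s y hs ⟨R, h⟩ h2
      have := qq_le_one (g := g) H.mono (s := s) (y := y) (by simp [h]) h2
      simpa using this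
    | succ n ih =>
      intro s y hs h h2
      obtain ⟨t, ht, ⟨R, hR⟩, a1, a3, a2⟩ := chg s y hs h
      have b1 : tm y < t + 1 := Nat.lt_succ_of_le (tm_le_of_mem (ap := ap) (g := g) (by simp [hR]))
      rcases act_cases (g := g) L a1 with a | ⟨-, -, -, a, -⟩ | ⟨-, -, a, -⟩ | ⟨S, -, a, -⟩
      · omega
      · rw [a] at a3
        have := ih (t + 1) _ (by omega) ⟨[], a3⟩ rfl
        rw [((nx_of_at hR hg).switch h2 b1).2.1] at this
        rw [pow_succ, ← div_div]; linarith
      · rw [a] at a3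
        have := k3 (t + 1) _ (by omega) ⟨[], a3⟩
        simp [win] at this
      · exact absurd a a2
  have k2' : ∀ s y, s0 ≤ s → (∃ R, LL ap g s = L ++ y :: R) → ik y ≠ 2 := by
    rintro s y hs ⟨R, h⟩ h2
    obtain ⟨n, hn⟩ := exists_pow_lt_of_lt_one ((nx_of_at h hg).qq_pos h2)
      (show (1 / 2 : ℝ) < 1 by norm_num)
    have := k2 n s y hs ⟨R, h⟩ h2
    rw [one_div_pow] at hn
    linarith
  have k1 : ∀ s y, s0 ≤ s → ¬∃ R, LL ap g s = L ++ y :: R := by
    intro s y hs h
    obtain ⟨t, ht, -, a1, a3, a2⟩ := chg s y hs h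
    have := k2' s y hs h
    rcases act_cases (g := g) L a1 with ⟨-, -, -, a, -⟩ | a | a | ⟨S, -, a, -⟩
    · rw [a] at a3
      exact k2' (t + 1) _ (by omega) ⟨[], a3⟩ rfl
    · exact this a.1
    · exact this a.1
    · exact a2 a
  obtain ⟨s, hs, hs'⟩ : ∃ s, s0 ≤ s ∧ ft (top (ist p)) + KK g + fm (top (ist p)) ≤ s :=
    ⟨_, le_max_left _ _, le_max_right _ _⟩
  obtain ⟨⟨R, hR⟩, hb⟩ := h0 s hs
  cases R with
  | cons y R => exact k1 s y hs ⟨R, hR⟩
  | nil =>
    rw [List.append_nil] at hR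
    rcases tr ap g s with ⟨q, h1, h2, h3, h4, h5⟩ |
      ⟨L1, it, L2, q, h1, h2, h3, h4, h5, h6, h7, h8⟩
    · rw [hR] at h1 h4
      obtain rfl := hg.last_eq h1
      rcases app_cases (g := g) (Nat.lt_succ_of_le h2) with ⟨-, h6 | h6⟩ | ⟨y, h6, -⟩
      · exact H.ne_nil hL hg h6
      · omega
      · exact k1 (s + 1) y (by omega) ⟨[], by rw [h4, h6]⟩
    · rw [hb it (by simp [← hR, h1])] at h6
      exact absurd h6 (by simp)

theorem Un_mono {e s t : ℕ} {σ : List Bool} {z y : ℕ} (hst : s ≤ t) (h : Un e s σ z = some y) :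
    Un e t σ z = some y :=
  Option.mem_def.1 (Nat.Partrec.Code.evaln_mono hst (Option.mem_def.2 h))

theorem Hyp.nd_true (H : Hyp ap g A) (S : Bool) (x : ℕ) (L : List Item) :
    ∀ᶠ s in atTop, ∃ k, (x, S, res (A S) k) ∈ nd ap g s x S L := by
  classical
  have h1 : ∀ᶠ k in atTop, ∀ y ∈ L.toFinset,
      ∃ s z, Un (eS g S) s (res (A S) k) (Nat.pair g (tm y)) = some z :=
    (Finset.eventually_all _).2 fun y _ => H.tot S _
  obtain ⟨k0, h1⟩ := h1.exists
  have h2 : ∀ᶠ s in atTop, ∀ y ∈ L.toFinset, dsc g S s (res (A S) k0) (tm y) = true := by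
    refine (Finset.eventually_all _).2 fun y hy => ?_
    obtain ⟨s, z, h⟩ := h1 y hy
    filter_upwards [eventually_ge_atTop s, eventually_gt_atTop z] with t a b
    simp [dsc, Un_mono a h, b]
  filter_upwards [h2, H.res_eq S k0, eventually_ge_atTop k0] with s a b c
  unfold nd
  have hk : (L.all fun y => dsc g S s (res (ap S s) k0) (tm y)) = true := by
    rw [b]; simpa using a
  cases hf : (List.range (s + 1)).find? fun k =>
      L.all fun y => dsc g S s (res (ap S s) k) (tm y) with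
  | none =>
    have := List.find?_eq_none.1 hf k0 (List.mem_range.2 (by omega))
    exact absurd hk this
  | some k =>
    have h3 := (List.find?_range_eq_some.1 hf).2.2
    have h4 : k ≤ k0 := by
      by_contra h
      have := h3 k0 (by omega)
      simp [hk] at this
    refine ⟨k, ?_⟩
    rw [← take_res (A S) h4, ← b, take_res _ h4]
    simp

theorem Hyp.extend (H : Hyp ap g A) {L : List Item} {p : Item} (hL : Stab ap g L)
    (hg : Good g L p) : ∃ y, Nx g p y ∧ Stab ap g (L ++ [y]) := by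
  obtain ⟨y, hy⟩ := H.const hL hg
  obtain ⟨s1, R1, h1⟩ := hy.exists
  refine ⟨y, nx_of_at h1 hg, ?_⟩
  have k1 : ∀ᶠ t in atTop, bad ap (GG ap g t) (t + 1) y = true → ∃ S,
      gd ap (GG ap g t) (t + 1) (ix y) S = false ∧
        GG ap g (t + 1) = GG ap g t ++ nd ap g (t + 1) (ix y) S (L ++ [y]) := by
    filter_upwards [hL, hy, (tendsto_add_atTop_nat 1).eventually hy] with t a ⟨R, b⟩ ⟨R', c⟩ hb
    rcases next_cases b a.2 with ⟨d, -⟩ | ⟨-, d1, d2⟩
    · rw [d] at hb; exact absurd hb (by simp)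
    have e : act ap g (GG ap g t) (t + 1) y = y := by
      rw [d1] at c
      have := List.append_cancel_left c
      simp only [List.cons.injEq] at this
      exact this.1
    have b1 : tm y ≤ t := tm_le_of_mem (ap := ap) (g := g) (by simp [b])
    rcases act_cases (g := g) L hb with ⟨-, -, -, a, -⟩ | ⟨-, -, -, a, -⟩ | ⟨-, -, a, -⟩ |
      ⟨S, a1, -, a2, -⟩
    · rw [a] at e; have := congrArg tm e; simp [realize, mkH] at this; omega
    · rw [a] at e; have := congrArg tm e; simp [switch, mkH] at this; omega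
    · rw [a] at e; have := congrArg tm e; simp [win] at this; omega
    · exact ⟨S, a1, by rw [d2, a2]⟩
  have k2 : ∀ S, ∀ᶠ t in atTop, ¬(gd ap (GG ap g t) (t + 1) (ix y) S = false ∧
      GG ap g (t + 1) = GG ap g t ++ nd ap g (t + 1) (ix y) S (L ++ [y])) := by
    intro S
    by_contra hn
    rw [not_eventually] at hn
    simp only [not_not] at hn
    obtain ⟨t, ⟨-, a⟩, k, b⟩ := (hn.and_eventually
      ((tendsto_add_atTop_nat 1).eventually (H.nd_true S (ix y) (L ++ [y])))).exists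
    have c : (ix y, S, res (A S) k) ∈ GG ap g (t + 1) := by rw [a]; exact List.mem_append_right _ b
    obtain ⟨t', ⟨d, -⟩, e⟩ := (hn.and_eventually (eventually_ge_atTop (t + 1))).exists
    rw [H.gd_of_true c e] at d
    exact absurd d (by simp)
  filter_upwards [hL, hy, k1, k2 false, k2 true] with t a ⟨R, b⟩ c d e
  refine ⟨⟨R, by simp [b]⟩, fun z hz => ?_⟩
  rcases List.mem_append.1 hz with hz | hz
  · exact a.2 z hz
  · rw [List.mem_singleton.1 hz]
    by_contra hb
    obtain ⟨S, hS⟩ := c (by simpa using hb)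
    cases S
    · exact d hS
    · exact e hS

theorem Good.head {L : List Item} {p : Item} (h : Good g L p) : ∃ R, L = [root] ++ R := by
  induction h with
  | base => exact ⟨[], rfl⟩
  | snoc h1 h2 ih => obtain ⟨R, rfl⟩ := ih; exact ⟨_, List.append_assoc _ _ _⟩

theorem stab_root : Stab ap g [root] := by
  refine Eventually.of_forall fun s => ⟨?_, by simp [bad_root]⟩
  obtain ⟨p, hp, -⟩ := good_LL ap g s
  exact hp.head

/-- The final sequence of items. -/
theorem Hyp.exists_limit (H : Hyp ap g A) : ∃ Λ : ℕ → Item, (∀ i, Nx g (Λ i) (Λ (i + 1))) ∧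
    (∀ i, (ist (Λ i)).length ≤ kk g + 1) ∧
    (∀ i, ∑ j ∈ Finset.range (i + 1), qq (Λ j) ≤ 2 * (g * 2 ^ (g + 2))) ∧
    (∀ i, ∀ᶠ s in atTop, Λ i ∈ LL ap g s ∧ bad ap (GG ap g s) (s + 1) (Λ i) = false) ∧
    ∀ i, ∀ᶠ s in atTop, ∀ y ∈ LL ap g s, tm y ≤ tm (Λ i) → ∃ j, y = Λ j := by
  let T := {z : List Item × Item // Good g z.1 z.2 ∧ Stab ap g z.1}
  have hT : ∀ z : T, ∃ w : T, Nx g z.1.2 w.1.2 ∧ w.1.1 = z.1.1 ++ [w.1.2] := by
    rintro ⟨⟨L, p⟩, h1, h2⟩
    obtain ⟨y, h3, h4⟩ := H.extend h2 h1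
    exact ⟨⟨(L ++ [y], y), h1.snoc h3, h4⟩, h3, rfl⟩
  choose nx h1 h2 using hT
  let F : ℕ → T := fun n => nx^[n] ⟨([root], root), Good.base, stab_root⟩
  have hF : ∀ n, F (n + 1) = nx (F n) := fun n => Function.iterate_succ_apply' _ _ _
  have hmem : ∀ n, ∀ y ∈ (F n).1.1, ∃ j, y = (F j).1.2 := by
    intro n
    induction n with
    | zero => intro y hy; exact ⟨0, List.mem_singleton.1 hy⟩
    | succ n ih =>
      intro y hy
      rw [hF, h2] at hy
      rcases List.mem_append.1 hy with hy | hy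
      · exact ih y hy
      · exact ⟨n + 1, by rw [hF]; exact List.mem_singleton.1 hy⟩
  have hJ : ∀ n, JJ (F n).1.1 = ∑ j ∈ Finset.range (n + 1), qq (F j).1.2 := by
    intro n
    induction n with
    | zero => simp [JJ, F]
    | succ n ih =>
      rw [Finset.sum_range_succ, ← ih, hF, h2]; simp [JJ]
  refine ⟨fun n => (F n).1.2, fun n => ?_, fun n => (F n).2.1.len_le, fun n => ?_, fun n => ?_,
    fun n => ?_⟩
  · simp only [hF]; exact h1 _
  · rw [← hJ]; exact H.junk_le (F n).2.2 (F n).2.1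
  · filter_upwards [(F n).2.2] with s ⟨⟨R, a⟩, b⟩
    exact ⟨by rw [a]; exact List.mem_append_left _ (F n).2.1.mem, b _ (F n).2.1.mem⟩
  · filter_upwards [(F n).2.2] with s ⟨⟨R, a⟩, _⟩ y hy ht
    rw [a] at hy
    rcases List.mem_append.1 hy with hy | hy
    · exact hmem n y hy
    obtain ⟨R1, R2, rfl⟩ := List.append_of_mem hy
    obtain ⟨q, hq, -⟩ := good_LL ap g s
    rw [← List.append_assoc] at a
    rcases (hq.init _ _ _ a).inv with ⟨e, -⟩ | ⟨q, c1, c2⟩
    · have := (F n).2.1.mem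
      rw [(List.append_eq_nil_iff.1 e).1] at this
      simp at this
    · have := c1.tm_le _ (List.mem_append_left _ (F n).2.1.mem)
      have := c2.tm_lt
      omega

end Pool.Agent.P.MP_471da3_lc
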