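import Pool.Agent.P.MP_471da3_lc.Acc

/-!
One stage of the construction.
-/

namespace Pool.Agent.P.MP_471da3_lc

open Pool.Agent.Lib.Comp

variable {g : ℕ} {ap : Bool → ℕ → ℕ → Bool}

theorem tw_cases (G : List Entry) (s : ℕ) (L : List Item) :
    ((∀ y ∈ L, bad ap G s y = false) ∧ tw ap G s L = L) ∨
      ∃ L1 it L2, L = L1 ++ it :: L2 ∧ (∀ y ∈ L1, bad ap G s y = false) ∧
        bad ap G s it = true ∧ tw ap G s L = L1 := by
  induction L with
  | nil => left; simp [tw]
  | cons a L ih =>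
    have e : tw ap G s (a :: L) = cond (bad ap G s a) [] (a :: tw ap G s L) := rfl
    cases hb : bad ap G s a
    · rw [hb] at e
      rcases ih with ⟨h1, h2⟩ | ⟨L1, it, L2, h1, h2, h3, h4⟩
      · left
        exact ⟨by simpa [hb] using h1, by rw [e, h2]; rfl⟩
      · right
        exact ⟨a :: L1, it, L2, by simp [h1], by simpa [hb] using h2, h3, by rw [e, h4]; rfl⟩
    · rw [hb] at e
      right
      exact ⟨[], a, L, rfl, by simp, hb, e⟩

theorem step_cases (s : ℕ) (z : List Item × List Entry) :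
    ((∀ y ∈ z.1, bad ap z.2 s y = false) ∧
      step ap g s z = (z.1 ++ app g s (z.1.getD (z.1.length - 1) root), z.2)) ∨
      ∃ L1 it L2, z.1 = L1 ++ it :: L2 ∧ (∀ y ∈ L1, bad ap z.2 s y = false) ∧
        bad ap z.2 s it = true ∧
        step ap g s z = (L1 ++ [act ap g z.2 s it], z.2 ++ newd ap g z.2 s L1 it) := by
  rcases tw_cases (ap := ap) z.2 s z.1 with ⟨h1, h2⟩ | ⟨L1, it, L2, h1, h2, h3, h4⟩
  · left
    refine ⟨h1, ?_⟩
    unfold step
    rw [h2]; simp
  · right
    refine ⟨L1, it, L2, h1, h2, h3, ?_⟩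
    unfold step
    rw [h4]
    have : z.1[L1.length]? = some it := by rw [h1]; simp
    rw [this]; rfl

theorem act_cases {G : List Entry} {s : ℕ} {it : Item} (L : List Item)
    (hb : bad ap G s it = true) :
    (ik it = 1 ∧ (∀ S, gd ap G s (ix it) S = true) ∧ rl (ie it) (ix it) s = true ∧
      act ap g G s it = realize g s it ∧ newd ap g G s L it = []) ∨
    (ik it = 2 ∧ gd ap G s (ix it) (isd it) = false ∧ gd ap G s (ix it) (!isd it) = true ∧
      act ap g G s it = switch g s it ∧ newd ap g G s L it = []) ∨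
    (ik it = 2 ∧ (∀ S, gd ap G s (ix it) S = false) ∧
      act ap g G s it = win s it ∧ newd ap g G s L it = []) ∨
    ∃ S, gd ap G s (ix it) S = false ∧ act ap g G s it = it ∧
      newd ap g G s L it = nd ap g s (ix it) S (L ++ [it]) ∧
      ((ik it = 1 ∧ (S = true → gd ap G s (ix it) false = true)) ∨
        (ik it = 4 ∧ ifn it = false ∧ S = isd it)) := by
  unfold bad at hb
  unfold act newd att
  by_cases h1 : ik it = 1
  · have e1 : eqb (ik it) 1 = true := by simp [h1]
    have e2 : eqb (ik it) 2 = false := by simp [h1]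
    rw [e1] at hb
    rw [e1, e2]
    cases a : gd ap G s (ix it) false <;> cases b : gd ap G s (ix it) true
    · exact Or.inr (Or.inr (Or.inr ⟨false, a, rfl, by simp [a], Or.inl ⟨h1, by simp⟩⟩))
    · exact Or.inr (Or.inr (Or.inr ⟨false, a, rfl, by simp [a], Or.inl ⟨h1, by simp⟩⟩))
    · exact Or.inr (Or.inr (Or.inr ⟨true, b, rfl, by simp [b], Or.inl ⟨h1, by simp⟩⟩))
    · left
      refine ⟨h1, fun S => by cases S <;> assumption, by simpa [a, b] using hb, rfl, by simp [b]⟩
  have e1 : eqb (ik it) 1 = false := by simp [h1]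
  rw [e1] at hb
  rw [e1]
  simp only [cond_false, Bool.and_eq_true, Bool.or_eq_true, eqb_true, Bool.not_eq_true',
    Bool.false_and] at hb ⊢
  by_cases h2 : ik it = 2
  · have e2 : eqb (ik it) 2 = true := by simp [h2]
    rw [e2]
    cases a : gd ap G s (ix it) (!isd it)
    · refine Or.inr (Or.inr (Or.inl ⟨h2, fun S => ?_, rfl, rfl⟩))
      have := hb.2
      cases S <;> cases hs : isd it <;> simp_all
    · exact Or.inr (Or.inl ⟨h2, hb.2, rfl, rfl, rfl⟩)
  · have e2 : eqb (ik it) 2 = false := by simp [h2]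
    rw [e2]
    refine Or.inr (Or.inr (Or.inr ⟨isd it, hb.2, rfl, by simp [hb.2], Or.inr ?_⟩))
    rcases hb.1 with h | h
    · exact absurd h h2
    · exact ⟨h.1, h.2, rfl⟩

theorem Nx.realize {p y : Item} {s : ℕ} (h : Nx g p y) (h1 : ik y = 1) (hs : tm y < s) :
    Nx g p (realize g s y) ∧ ix y = tm y ∧ 2 * qq (realize g s y) = wt y ∧
      (ist (realize g s y)).length = (ist y).length + 1 := by
  cases h with
  | R s f rest h3 h4 h5 => simp [mkR] at h1
  | W s x f rest h3 h4 h5 h6 => simp at h1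
  | H s x sd Q f rest h3 h4 h5 h6 h7 h8 => simp [mkH] at h1
  | U t f rest h3 h4 h5 h6 =>
    simp only [mkU, tm_mk] at hs
    have e : MP_471da3_lc.realize g s (mkU g t p f) = mkH g s t (fm f) true
        (2 ^ (s - (ft f + KK g + fm f + 2))) (sc (iV p) (tm p) s) f rest := by
      simp only [MP_471da3_lc.realize, mkU, ix_mk, ie_mk, ij_mk, tm_mk, iV_mk, ist_mk, top_cons,
        setm_setm, setm_self, h3, List.drop_one, List.tail_cons, Nat.add_sub_cancel]
      rw [sc_sc _ h4.le hs.le, ← pow_add]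
      congr 2; omega
    rw [e]
    refine ⟨Nx.H s t true _ f rest h3 h4 hs.le h5 (by omega) le_rfl, rfl, ?_, ?_⟩
    · simp only [qq, mkH, iQ_mk, tm_mk, wt, mkU, ij_mk]
      rw [v_pow h6, v_pow (by omega), pow_succ _ (ft f + KK g + fm f + 1)]
      field_simp
    · simp [mkH, mkU, h3]

theorem Nx.switch {p y : Item} {s : ℕ} (h : Nx g p y) (h1 : ik y = 2) (hs : tm y < s) :
    Nx g p (switch g s y) ∧ qq (switch g s y) = 2 * qq y ∧
      (ist (switch g s y)).length = (ist y).length := by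
  cases h with
  | R s f rest h3 h4 h5 => simp [mkR] at h1
  | W s x f rest h3 h4 h5 h6 => simp at h1
  | U t f rest h3 h4 h5 h6 => simp [mkU] at h1
  | H t x sd Q f rest h3 h4 h5 h6 h7 h8 =>
    simp only [mkH, tm_mk] at hs
    have e : MP_471da3_lc.switch g s (mkH g t x (fm f) sd Q (sc (iV p) (tm p) t) f rest) =
        mkH g s x (fm f) (!sd) (2 * sc Q t s) (sc (iV p) (tm p) s) f rest := by
      simp only [MP_471da3_lc.switch, mkH_eq, ix_mk, ie_mk, tm_mk, iV_mk, ist_mk, top_cons,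
        isd_mk, iQ_mk, List.drop_succ_cons, List.drop_zero]
      rw [sc_sc _ (by omega) hs.le]
    rw [e]
    refine ⟨Nx.H s x _ _ f rest h3 h4 (by omega) h6 (by omega) ?_, ?_, ?_⟩
    · have : 2 ^ (s - (ft f + KK g + fm f + 2)) =
          2 ^ (t - (ft f + KK g + fm f + 2)) * 2 ^ (s - t) := by
        rw [← pow_add]; congr 1; omega
      rw [this]
      unfold sc
      have := Nat.mul_le_mul_right (2 ^ (s - t)) h8
      omega
    · simp only [qq, mkH, iQ_mk, tm_mk, v_two, v_sc _ hs.le]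
    · simp [mkH]

theorem Nx.win {p y : Item} {s : ℕ} (h : Nx g p y) (h1 : ik y = 2) (hs : tm y < s) :
    Nx g p (win s y) ∧ (ist (win s y)).length + 1 = (ist y).length := by
  cases h with
  | R s f rest h3 h4 h5 => simp [mkR] at h1
  | W s x f rest h3 h4 h5 h6 => simp at h1
  | U t f rest h3 h4 h5 h6 => simp [mkU] at h1
  | H t x sd Q f rest h3 h4 h5 h6 h7 h8 =>
    simp only [mkH, tm_mk] at hs
    have e : MP_471da3_lc.win s (mkH g t x (fm f) sd Q (sc (iV p) (tm p) t) f rest) =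
        mkI 3 s x (fm f) 0 0 (sc (iV p) (tm p) s) false false (setm f (fm f + 1) :: rest) := by
      simp only [MP_471da3_lc.win, mkH_eq, ix_mk, ie_mk, tm_mk, iV_mk, ist_mk, top_cons,
        List.drop_succ_cons, List.drop_zero]
      rw [sc_sc _ (by omega) hs.le]
    rw [e]
    exact ⟨Nx.W s x f rest h3 h4 (by omega) h6, by simp [mkH]⟩

theorem Nx.act {p y : Item} {G : List Entry} {s : ℕ} (h : Nx g p y) (hs : tm y < s)
    (hb : bad ap G s y = true) : Nx g p (act ap g G s y) := by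
  rcases act_cases (g := g) [] hb with ⟨h1, -, -, h2, -⟩ | ⟨h1, -, -, h2, -⟩ | ⟨h1, -, h2, -⟩ |
    ⟨S, -, h2, -⟩ <;> rw [h2]
  · exact (h.realize h1 hs).1
  · exact (h.switch h1 hs).1
  · exact (h.win h1 hs).1
  · exact h

theorem tm_act {y : Item} {G : List Entry} {s : ℕ} :
    act ap g G s y = y ∨ tm (act ap g G s y) = s := by
  unfold act
  cases (eqb (ik y) 1 && (gd ap G s (ix y) false && gd ap G s (ix y) true)) <;>
    cases eqb (ik y) 2 <;> cases gd ap G s (ix y) (!isd y) <;>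
    simp [realize, switch, win, mkH]

theorem app_cases {p : Item} {s : ℕ} (hs : tm p < s) :
    (app g s p = [] ∧ (ist p = [] ∨ s < ft (top (ist p)) + KK g + fm (top (ist p)) + 1)) ∨
    ∃ y, app g s p = [y] ∧ Nx g p y ∧ tm y = s ∧ (ik y = 4 ∨ (ik y = 1 ∧ ix y = s)) := by
  unfold app
  cases e : ist p with
  | nil => left; exact ⟨rfl, Or.inl rfl⟩
  | cons f rest =>
    have : eqb (f :: rest).length 0 = false := by simp
    rw [this]
    simp only [cond_false, top_cons]
    cases hr : ret g p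
    · cases hl : leb (ft f + KK g + fm f + 1) s
      · left; exact ⟨rfl, Or.inr (leb_false.1 hl)⟩
      · right
        exact ⟨_, rfl, Nx.U s f rest e hs hr (leb_true.1 hl), rfl, Or.inr ⟨rfl, rfl⟩⟩
    · right
      exact ⟨_, rfl, Nx.R s f rest e hs hr, rfl, Or.inl rfl⟩

theorem bad_root (G : List Entry) (s : ℕ) : bad ap G s root = false := by
  simp [bad, root, eqb]

/-- The two kinds of stages. -/
def Tr (ap : Bool → ℕ → ℕ → Bool) (g s : ℕ) : Prop :=
  (∃ p, Good g (LL ap g s) p ∧ tm p ≤ s ∧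
    (∀ y ∈ LL ap g s, bad ap (GG ap g s) (s + 1) y = false) ∧
    LL ap g (s + 1) = LL ap g s ++ app g (s + 1) p ∧ GG ap g (s + 1) = GG ap g s) ∨
  ∃ L1 it L2 p, LL ap g s = L1 ++ it :: L2 ∧ Good g L1 p ∧ Nx g p it ∧ tm it ≤ s ∧
    (∀ y ∈ L1, bad ap (GG ap g s) (s + 1) y = false) ∧ bad ap (GG ap g s) (s + 1) it = true ∧
    LL ap g (s + 1) = L1 ++ [act ap g (GG ap g s) (s + 1) it] ∧
    GG ap g (s + 1) = GG ap g s ++ newd ap g (GG ap g s) (s + 1) L1 it

theorem tr_of_good {s : ℕ} {p : Item} (h : Good g (LL ap g s) p) (hs : tm p ≤ s) : Tr ap g s := by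
  have e : St ap g (s + 1) = step ap g (s + 1) (St ap g s) := rfl
  rcases step_cases (g := g) (ap := ap) (s + 1) (St ap g s) with
    ⟨h1, h2⟩ | ⟨L1, it, L2, h1, h2, h3, h4⟩
  · left
    refine ⟨p, h, hs, h1, ?_, ?_⟩
    · unfold LL at h ⊢
      rw [e, h2, h.getD]
    · unfold GG
      rw [e, h2]
  · right
    rcases (h.init _ _ _ h1).inv with ⟨-, rfl⟩ | ⟨q, h5, h6⟩
    · rw [bad_root] at h3; exact absurd h3 (by simp)
    refine ⟨L1, it, L2, q, h1, h5, h6, (h.tm_le it ?_).trans hs, h2, h3, ?_, ?_⟩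
    · unfold LL; rw [h1]; simp
    · unfold LL GG; rw [e, h4]
    · unfold GG; rw [e, h4]

theorem good_LL (ap : Bool → ℕ → ℕ → Bool) (g s : ℕ) :
    ∃ p, Good g (LL ap g s) p ∧ tm p ≤ s := by
  induction s with
  | zero => exact ⟨root, Good.base, le_rfl⟩
  | succ s ih =>
    obtain ⟨p, h, hs⟩ := ih
    rcases tr_of_good h hs with ⟨p, h1, h2, h3, h4, h5⟩ |
      ⟨L1, it, L2, p, h1, h2, h3, h4, h5, h6, h7, h8⟩
    · rw [h4]
      rcases app_cases (g := g) (Nat.lt_succ_of_le h2) with ⟨h6, -⟩ | ⟨y, h6, h7, h8, -⟩ <;>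
        rw [h6]
      · exact ⟨p, by simpa using h1, by omega⟩
      · exact ⟨y, h1.snoc h7, h8.le⟩
    · rw [h7]
      refine ⟨_, h2.snoc (h3.act (Nat.lt_succ_of_le h4) h6), ?_⟩
      rcases tm_act (g := g) (ap := ap) (y := it) (G := GG ap g s) (s := s + 1) with h | h <;>
        rw [h]
      omega

theorem tr (ap : Bool → ℕ → ℕ → Bool) (g s : ℕ) : Tr ap g s := by
  obtain ⟨p, h, hs⟩ := good_LL ap g s
  exact tr_of_good h hs

theorem tm_le_of_mem {s : ℕ} {y : Item} (hy : y ∈ LL ap g s) : tm y ≤ s := by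
  obtain ⟨p, h, hs⟩ := good_LL ap g s
  exact (h.tm_le y hy).trans hs

theorem mem_LL_succ {s : ℕ} {y : Item} (hy : y ∈ LL ap g (s + 1)) :
    y ∈ LL ap g s ∨ tm y = s + 1 := by
  rcases tr ap g s with ⟨p, h1, h2, h3, h4, h5⟩ |
    ⟨L1, it, L2, p, h1, h2, h3, h4, h5, h6, h7, h8⟩
  · rw [h4] at hy
    rcases List.mem_append.1 hy with hy | hy
    · exact Or.inl hy
    · rcases app_cases (g := g) (Nat.lt_succ_of_le h2) with ⟨h6, -⟩ | ⟨z, h6, h7, h8, -⟩ <;>
        rw [h6] at hy
      · simp at hy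
      · rw [List.mem_singleton.1 hy]; exact Or.inr h8
  · rw [h7] at hy
    rw [h1]
    rcases List.mem_append.1 hy with hy | hy
    · left; simp [hy]
    · rw [List.mem_singleton.1 hy]
      rcases tm_act (g := g) (ap := ap) (y := it) (G := GG ap g s) (s := s + 1) with h | h
      · left; simp [h]
      · exact Or.inr h

theorem mem_LL_of_le {s t : ℕ} {y : Item} (hy : y ∈ LL ap g s) (h1 : tm y ≤ t) (h2 : t ≤ s) :
    y ∈ LL ap g t := by
  induction s with
  | zero => obtain rfl : t = 0 := by omega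
            exact hy
  | succ s ih =>
    rcases Nat.eq_or_lt_of_le h2 with rfl | h3
    · exact hy
    · rcases mem_LL_succ hy with h | h
      · exact ih h (by omega)
      · omega

theorem GG_succ {s : ℕ} {e : Entry} (h : e ∈ GG ap g s) : e ∈ GG ap g (s + 1) := by
  rcases tr ap g s with ⟨p, h1, h2, h3, h4, h5⟩ |
    ⟨L1, it, L2, p, h1, h2, h3, h4, h5, h6, h7, h8⟩
  · rwa [h5]
  · rw [h8]; exact List.mem_append_left _ h

theorem GG_mono {s t : ℕ} {e : Entry} (h : e ∈ GG ap g s) (hst : s ≤ t) : e ∈ GG ap g t := by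
  induction hst with
  | refl => exact h
  | step _ ih => exact GG_succ ih

end Pool.Agent.P.MP_471da3_lc
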